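import Pool.Agent.Lib.MP_17a322_nt.SV2.Defs

/-!
Strict inclusion of prime ideals.
-/

universe u

namespace Pool.Agent.Lib.MP_17a322_nt.SV2

open MvPolynomial

/-- The transcendence degree drops modulo a nonzero prime ideal. -/
theorem C_trdeg' {k B : Type u} [Field k] [CommRing B] [IsDomain B] [Algebra k B]
    (p : Ideal B) [p.IsPrime] (hp : p ≠ ⊥) :
    Algebra.trdeg k (B ⧸ p) + 1 ≤ Algebra.trdeg k B := by
  classical
  obtain ⟨F, hF, hF0⟩ := Submodule.exists_mem_ne_zero_of_ne_bot hp
  obtain ⟨s, hs⟩ := exists_isTranscendenceBasis k (B ⧸ p)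
  let π : B →ₐ[k] B ⧸ p := Ideal.Quotient.mkₐ k p
  have hπ : Function.Surjective π := Ideal.Quotient.mk_surjective
  choose y hy using hπ
  let x : s → B := fun i => y i
  have hx' : AlgebraicIndependent k (π ∘ x) := by
    have h2 : π ∘ x = ((↑) : s → B ⧸ p) := funext fun i => hy i
    rw [h2]
    exact hs.1
  have hx : AlgebraicIndependent k x := AlgebraicIndependent.of_comp π hx'
  have hπF : π F = 0 := Ideal.Quotient.eq_zero_iff_mem.mpr hF
  have htr : Transcendental (Algebra.adjoin k (Set.range x)) F := by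
    rintro ⟨P, hP0, hPF⟩
    obtain ⟨Q, hQ, hQ0⟩ := Polynomial.exists_eq_pow_rootMultiplicity_mul_and_not_dvd P hP0 0
    rw [Polynomial.C_0, sub_zero] at hQ hQ0
    rw [Polynomial.X_dvd_iff] at hQ0
    have h5 : Polynomial.aeval F Q = 0 := by
      rw [hQ, map_mul, map_pow, Polynomial.aeval_X] at hPF
      exact (mul_eq_zero.mp hPF).resolve_left (pow_ne_zero _ hF0)
    rw [← Polynomial.divX_mul_X_add Q, map_add, map_mul, Polynomial.aeval_X,
      Polynomial.aeval_C] at h5
    have h6 : π ((Q.coeff 0 : Algebra.adjoin k (Set.range x)) : B) = 0 := by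
      have h7 := congrArg π h5
      rw [map_add, map_mul, hπF, mul_zero, zero_add, map_zero] at h7
      exact h7
    have h8 : ((Q.coeff 0 : Algebra.adjoin k (Set.range x)) : B) ∈
        (aeval x : MvPolynomial s k →ₐ[k] B).range := by
      rw [← Algebra.adjoin_range_eq_range_aeval]
      exact (Q.coeff 0).2
    obtain ⟨G, hG⟩ := h8
    replace hG : aeval x G = ((Q.coeff 0 : Algebra.adjoin k (Set.range x)) : B) := hG
    have h9 : aeval (π ∘ x) G = 0 := by
      rw [← hG] at h6
      rw [← h6]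
      show aeval (π ∘ x) G = π (aeval x G)
      rw [← AlgHom.comp_apply, comp_aeval]
      rfl
    have h10 : G = 0 := by
      apply hx'
      rw [h9, map_zero]
    apply hQ0
    apply Subtype.ext
    rw [← hG, h10]
    exact map_zero _
  have h3 := (hx.option_iff_transcendental F).mpr htr
  have h4 := h3.cardinalMk_le_trdeg
  rw [Cardinal.mk_option, hs.cardinalMk_eq_trdeg] at h4
  exact h4

/-- C1: strict inclusion of prime ideals. -/
theorem C_trdeg {k B : Type u} [Field k] [CommRing B] [IsDomain B] [Algebra k B]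
    [Algebra.FiniteType k B] (p : Ideal B) [p.IsPrime] (hp : p ≠ ⊥) :
    Algebra.trdeg k (B ⧸ p) + 1 ≤ Algebra.trdeg k B :=
  C_trdeg' p hp

end Pool.Agent.Lib.MP_17a322_nt.SV2
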