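import Pool.Agent.Lib.MP_17a322_nt.SV2.Defs

/-!
Avoiding finitely many subspaces.
-/

universe u

namespace Pool.Agent.Lib.MP_17a322_nt.SV2

/-- C2: avoiding finitely many subspaces, integral coefficients. -/
theorem C_avoid {k V : Type*} [Field k] [CharZero k] [AddCommGroup V] [Module k V] {m s : ℕ}
    (w : Fin m → V) (U : Fin s → Submodule k V) (h : ∀ i, ∃ j, w j ∉ U i) :
    ∃ c : Fin m → ℤ, ∀ i, ∑ j, (c j : k) • w j ∉ U i := by
  classical
  let Φ : (Fin m → k) →ₗ[k] V := ∑ j, (LinearMap.toSpanSingleton k V (w j)).comp (LinearMap.proj j)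
  have hΦ : ∀ c : Fin m → k, Φ c = ∑ j, c j • w j := by
    intro c
    simp only [Φ, LinearMap.sum_apply, LinearMap.comp_apply, LinearMap.proj_apply,
      LinearMap.toSpanSingleton_apply]
  -- the subspaces over the rational numbers
  let W : Fin s → Submodule ℚ (Fin m → ℚ) := fun i =>
    { carrier := {c | Φ (fun j => (c j : k)) ∈ U i}
      add_mem' := by
        intro a b ha hb
        have h1 : (fun j => ((a + b) j : k)) = (fun j => (a j : k)) + fun j => (b j : k) := by
          funext j
          simp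
        show Φ (fun j => ((a + b) j : k)) ∈ U i
        rw [h1, map_add]
        exact (U i).add_mem ha hb
      zero_mem' := by
        have h1 : (fun j => (((0 : Fin m → ℚ) j : ℚ) : k)) = 0 := by
          funext j
          simp
        show Φ (fun j => (((0 : Fin m → ℚ) j : ℚ) : k)) ∈ U i
        rw [h1, map_zero]
        exact (U i).zero_mem
      smul_mem' := by
        intro a b hb
        have h1 : (fun j => ((a • b) j : k)) = (a : k) • fun j => (b j : k) := by
          funext j
          simp
        show Φ (fun j => ((a • b) j : k)) ∈ U i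
        rw [h1, map_smul]
        exact (U i).smul_mem _ hb }
  have hne : ⋃ i, (W i : Set (Fin m → ℚ)) ≠ Set.univ := by
    intro hcov
    obtain ⟨i, hi⟩ := Subspace.exists_eq_top_of_iUnion_eq_univ hcov
    obtain ⟨j, hj⟩ := h i
    apply hj
    have h1 : (Pi.single j 1 : Fin m → ℚ) ∈ W i := by rw [hi]; trivial
    have h2 : Φ (fun l => ((Pi.single j 1 : Fin m → ℚ) l : k)) ∈ U i := h1
    rw [hΦ, Finset.sum_eq_single j] at h2
    · simpa using h2
    · intro b _ hb
      simp [hb]
    · intro h3
      exact absurd (Finset.mem_univ j) h3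
  obtain ⟨c, hc⟩ := (Set.ne_univ_iff_exists_notMem _).mp hne
  -- a common denominator
  let D : ℕ := ∏ j, (c j).den
  have hD : (D : ℚ) ≠ 0 := Nat.cast_ne_zero.mpr (Finset.prod_ne_zero_iff.mpr fun j _ => (c j).den_nz)
  have hz : ∀ j, ∃ z : ℤ, (z : ℚ) = D * c j := by
    intro j
    obtain ⟨e, he⟩ := Finset.dvd_prod_of_mem (fun j => (c j).den) (Finset.mem_univ j)
    refine ⟨e * (c j).num, ?_⟩
    have h1 : (D : ℚ) = (c j).den * e := by
      show ((∏ j, (c j).den : ℕ) : ℚ) = _
      rw [he]
      push_cast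
      ring
    have h3 : c j * (c j).den = (c j).num := Rat.mul_den_eq_num (c j)
    rw [h1]
    push_cast
    rw [← h3]
    ring
  choose z hz using hz
  refine ⟨z, fun i hi => hc (Set.mem_iUnion.mpr ⟨i, ?_⟩)⟩
  show Φ (fun j => (c j : k)) ∈ U i
  have h1 : (fun j => ((z j : ℤ) : k)) = (D : k) • fun j => (c j : k) := by
    funext j
    have h2 := congrArg (fun t : ℚ => (t : k)) (hz j)
    simp only [Rat.cast_intCast, Rat.cast_mul, Rat.cast_natCast] at h2
    rw [Pi.smul_apply, smul_eq_mul, h2]
  have h3 : Φ (fun j => ((z j : ℤ) : k)) ∈ U i := by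
    rw [hΦ]
    exact hi
  rw [h1, map_smul] at h3
  have h4 : (D : k) ≠ 0 := by
    intro h5
    apply hD
    have h6 : D = 0 := by exact_mod_cast h5
    rw [h6, Nat.cast_zero]
  exact ((U i).smul_mem_iff h4).mp h3

end Pool.Agent.Lib.MP_17a322_nt.SV2
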