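import Pool.Agent.Lib.MP_17a322_nt.SV2.C1
import Pool.Agent.Lib.MP_17a322_nt.VA.A3
import Pool.Agent.Lib.MP_17a322_nt.VA.Z3

/-!
Prime ideals of the coordinate ring of the cone over `A` times affine space, and points.
-/

universe u

namespace Pool.Agent.Lib.MP_17a322_nt.SV2

open MvPolynomial
open Pool.Agent.Lib.MP_17a322_nt.VA
open Pool.Agent.Lib.MP_17a322_nt.VN

/-! ### Fields generated by finite families -/

section

variable {K L : Type u} [Field K] [Field L] [Algebra K L]

theorem cl_mem_iff (S : Set L) (e : L) :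
    IsAlgebraic (IntermediateField.adjoin K S) e ↔
      e ∈ (AlgebraicIndependent.matroid K L).closure S := by
  rw [AlgebraicIndependent.matroid_closure_eq]
  exact IntermediateField.isAlgebraic_adjoin_iff

theorem cl_trans {S S' : Set L} (h : ∀ x ∈ S, IsAlgebraic (IntermediateField.adjoin K S') x) {e : L}
    (he : IsAlgebraic (IntermediateField.adjoin K S) e) :
    IsAlgebraic (IntermediateField.adjoin K S') e := by
  rw [cl_mem_iff] at he ⊢
  have h1 : S ⊆ (AlgebraicIndependent.matroid K L).closure S' := fun x hx =>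
    (cl_mem_iff S' x).1 (h x hx)
  have h2 := (AlgebraicIndependent.matroid K L).closure_subset_closure h1 he
  rwa [Matroid.closure_closure] at h2

theorem cl_self {S : Set L} {e : L} (he : e ∈ IntermediateField.adjoin K S) :
    IsAlgebraic (IntermediateField.adjoin K S) e :=
  isAlgebraic_algebraMap (A := L) (⟨e, he⟩ : IntermediateField.adjoin K S)

/-- A transcendence basis of the field generated by a finite family. -/
theorem cl_basis {κ : Type*} [Finite κ] (w : κ → L) : ∃ T : Set κ,
    AlgebraicIndependent K (fun t : T => w t) ∧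
    (∀ i, IsAlgebraic (IntermediateField.adjoin K (w '' T)) (w i)) ∧
    Algebra.trdeg K (IntermediateField.adjoin K (Set.range w)) = (Nat.card T : Cardinal.{u}) := by
  obtain ⟨T, hT, hT'⟩ := exists_basis_subset (K := K) w
  refine ⟨T, hT, hT', le_antisymm ?_ ?_⟩
  · obtain ⟨s, hs⟩ := exists_isTranscendenceBasis K (IntermediateField.adjoin K (Set.range w))
    have h1 : AlgebraicIndependent K
        ((IntermediateField.adjoin K (Set.range w)).val ∘ ((↑) : s → _)) :=
      hs.1.map' (IntermediateField.adjoin K (Set.range w)).val.toRingHom.injective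
    have h2 : ∀ i : s, IsAlgebraic (IntermediateField.adjoin K (Set.range fun t : T => w t))
        (((IntermediateField.adjoin K (Set.range w)).val ∘ ((↑) : s → _)) i) := by
      intro i
      refine cl_trans (S := Set.range w) ?_ (cl_self i.1.2)
      rintro _ ⟨p, rfl⟩
      have h3 := hT' p
      rwa [Set.image_eq_range] at h3
    obtain ⟨hfin, hcard⟩ := indep_card_le (K := K) _ h1 (fun t : T => w t) h2
    rw [← hs.cardinalMk_eq_trdeg, ← Nat.cast_card (α := s)]
    exact_mod_cast hcard
  · have h4 : ∀ t : T, w t ∈ IntermediateField.adjoin K (Set.range w) := fun t =>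
      IntermediateField.subset_adjoin K _ ⟨_, rfl⟩
    have h5 : AlgebraicIndependent K
        fun t : T => (⟨w t, h4 t⟩ : IntermediateField.adjoin K (Set.range w)) :=
      AlgebraicIndependent.of_comp (IntermediateField.val _) hT
    have h6 := h5.lift_cardinalMk_le_trdeg
    rw [← Nat.cast_card (α := T), Cardinal.lift_natCast] at h6
    exact Cardinal.nat_le_lift_iff.1 h6

/-- The number of algebraically independent elements, bounded by a basis. -/
theorem cl_card_le {κ ι : Type*} [Finite κ] (w : κ → L) (v : ι → L)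
    (hv : AlgebraicIndependent K v)
    (h : ∀ i, IsAlgebraic (IntermediateField.adjoin K (Set.range w)) (v i)) :
    Finite ι ∧ (Nat.card ι : Cardinal.{u}) ≤
      Algebra.trdeg K (IntermediateField.adjoin K (Set.range w)) := by
  obtain ⟨T, hT, hT', hc⟩ := cl_basis (K := K) w
  obtain ⟨h1, h2⟩ := indep_card_le (K := K) v hv (fun t : T => w t) fun i => by
    refine cl_trans ?_ (h i)
    rintro _ ⟨p, rfl⟩
    have h3 := hT' p
    rwa [Set.image_eq_range] at h3
  refine ⟨h1, ?_⟩
  rw [hc]
  exact_mod_cast h2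

end

/-! ### Quotients of algebras -/

section

variable {K L B : Type u} [Field K] [Field L] [Algebra K L] [CommRing B] [Algebra K B]
  {p : Ideal B}

/-- Lower bound for the transcendence degree of a quotient. -/
theorem cl_ge (σ : B ⧸ p →ₐ[K] L) {κ : Type*} [Finite κ] (gn : κ → B)
    {ι : Type*} (v : ι → L) (hv : AlgebraicIndependent K v)
    (h : ∀ i, IsAlgebraic (IntermediateField.adjoin K
      (Set.range fun k => σ (Ideal.Quotient.mk p (gn k)))) (v i)) :
    Finite ι ∧ (Nat.card ι : Cardinal.{u}) ≤ Algebra.trdeg K (B ⧸ p) := by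
  obtain ⟨T, hT, hT'⟩ := exists_basis_subset (K := K) fun k => σ (Ideal.Quotient.mk p (gn k))
  obtain ⟨h1, h2⟩ := indep_card_le (K := K) v hv (fun t : T => σ (Ideal.Quotient.mk p (gn t)))
    fun i => by
      refine cl_trans ?_ (h i)
      rintro _ ⟨k, rfl⟩
      have h3 := hT' k
      rwa [Set.image_eq_range] at h3
  refine ⟨h1, ?_⟩
  have h5 : AlgebraicIndependent K fun t : T => Ideal.Quotient.mk p (gn t) :=
    AlgebraicIndependent.of_comp σ hT
  have h6 := h5.lift_cardinalMk_le_trdeg
  rw [← Nat.cast_card (α := T), Cardinal.lift_natCast] at h6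
  have h7 : (Nat.card T : Cardinal.{u}) ≤ Algebra.trdeg K (B ⧸ p) :=
    Cardinal.nat_le_lift_iff.1 h6
  refine le_trans ?_ h7
  exact_mod_cast h2

/-- Upper bound for the transcendence degree of a quotient. -/
theorem cl_le (σ : B ⧸ p →ₐ[K] L) (hσ : Function.Injective σ) {κ κ' : Type*} [Finite κ']
    (gn : κ → B) (hgn : Algebra.adjoin K (Set.range gn) = ⊤) (w : κ' → L)
    (h : ∀ k, IsAlgebraic (IntermediateField.adjoin K (Set.range w))
      (σ (Ideal.Quotient.mk p (gn k)))) [IsDomain (B ⧸ p)] :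
    Algebra.trdeg K (B ⧸ p) ≤ (Nat.card κ' : Cardinal.{u}) := by
  obtain ⟨s, hs⟩ := exists_isTranscendenceBasis K (B ⧸ p)
  have h1 : AlgebraicIndependent K (σ ∘ ((↑) : s → B ⧸ p)) := hs.1.map' hσ
  have h2 : ∀ b : B, σ (Ideal.Quotient.mk p b) ∈ IntermediateField.adjoin K
      (Set.range fun k => σ (Ideal.Quotient.mk p (gn k))) := by
    intro b
    have hb : b ∈ Algebra.adjoin K (Set.range gn) := by rw [hgn]; trivial
    have h3 : (Algebra.adjoin K (Set.range gn)).map (σ.comp (Ideal.Quotient.mkₐ K p)) ≤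
        (IntermediateField.adjoin K
          (Set.range fun k => σ (Ideal.Quotient.mk p (gn k)))).toSubalgebra := by
      rw [AlgHom.map_adjoin, Algebra.adjoin_le_iff]
      rintro _ ⟨_, ⟨k, rfl⟩, rfl⟩
      exact IntermediateField.subset_adjoin K _ ⟨k, rfl⟩
    exact h3 ⟨b, hb, rfl⟩
  have h4 : ∀ i : s, IsAlgebraic (IntermediateField.adjoin K (Set.range w))
      ((σ ∘ ((↑) : s → B ⧸ p)) i) := by
    intro i
    obtain ⟨b, hb⟩ := Ideal.Quotient.mk_surjective i.1
    refine cl_trans ?_ (cl_self (K := K) (S := Set.range fun k =>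
      σ (Ideal.Quotient.mk p (gn k))) (e := (σ ∘ ((↑) : s → B ⧸ p)) i) ?_)
    · rintro _ ⟨k, rfl⟩
      exact h k
    · show σ i.1 ∈ _
      rw [← hb]
      exact h2 b
  obtain ⟨hfin, hcard⟩ := indep_card_le (K := K) _ h1 w h4
  rw [← hs.cardinalMk_eq_trdeg, ← Nat.cast_card (α := s)]
  exact_mod_cast hcard

end

/-! ### Points and prime ideals -/

section

variable {K : Type u} [Field K] {N q : ℕ}

/-- The generators of the ring of polynomials. -/
noncomputable def gn (K : Type u) [Field K] (N q : ℕ) :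
    Fin (N + 1) ⊕ Fin q → MvPolynomial (Fin q) (MvPolynomial (Fin (N + 1)) K) :=
  Sum.elim (fun i => C (X i)) X

theorem gn_adjoin : Algebra.adjoin K (Set.range (gn K N q)) = ⊤ := by
  rw [eq_top_iff]
  intro f _
  have hC : ∀ a : MvPolynomial (Fin (N + 1)) K,
      (C a : MvPolynomial (Fin q) (MvPolynomial (Fin (N + 1)) K)) ∈
        Algebra.adjoin K (Set.range (gn K N q)) := by
    intro a
    induction a using MvPolynomial.induction_on with
    | C c => exact Subalgebra.algebraMap_mem _ c
    | add a b ha hb =>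
      rw [map_add]
      exact Subalgebra.add_mem _ ha hb
    | mul_X a i ha =>
      rw [map_mul]
      exact Subalgebra.mul_mem _ ha (Algebra.subset_adjoin ⟨Sum.inl i, rfl⟩)
  induction f using MvPolynomial.induction_on with
  | C a => exact hC a
  | add a b ha hb => exact Subalgebra.add_mem _ (ha trivial) (hb trivial)
  | mul_X a i ha =>
    exact Subalgebra.mul_mem _ (ha trivial) (Algebra.subset_adjoin ⟨Sum.inr i, rfl⟩)

/-- The value at the vector `(y, u)`. -/
noncomputable def vl {L : Type u} [Field L] [Algebra K L] (y : Fin (N + 1) → L) (u : Fin q → L) :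
    MvPolynomial (Fin q) (MvPolynomial (Fin (N + 1)) K) →ₐ[K] L :=
  { eval₂Hom (aeval y : MvPolynomial (Fin (N + 1)) K →ₐ[K] L).toRingHom u with
    commutes' := fun c => by
      show eval₂Hom (aeval y : MvPolynomial (Fin (N + 1)) K →ₐ[K] L).toRingHom u (C (C c)) = _
      rw [coe_eval₂Hom, eval₂_C]
      exact aeval_C _ _ }

theorem vl_apply {L : Type u} [Field L] [Algebra K L] (y : Fin (N + 1) → L) (u : Fin q → L)
    (f : MvPolynomial (Fin q) (MvPolynomial (Fin (N + 1)) K)) :
    vl y u f = eval₂ (aeval y : MvPolynomial (Fin (N + 1)) K →ₐ[K] L).toRingHom u f := rfl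

theorem vl_C {L : Type u} [Field L] [Algebra K L] (y : Fin (N + 1) → L) (u : Fin q → L)
    (a : MvPolynomial (Fin (N + 1)) K) : vl y u (C a) = aeval y a := by
  rw [vl_apply, eval₂_C]
  rfl

theorem vl_X {L : Type u} [Field L] [Algebra K L] (y : Fin (N + 1) → L) (u : Fin q → L)
    (j : Fin q) : vl (K := K) y u (X j) = u j := by
  rw [vl_apply, eval₂_X]

theorem vl_gn {L : Type u} [Field L] [Algebra K L] (y : Fin (N + 1) → L) (u : Fin q → L)
    (k : Fin (N + 1) ⊕ Fin q) : vl y u (gn K N q k) = Sum.elim y u k := by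
  rcases k with i | j
  · show vl y u (C (X i)) = y i
    rw [vl_C, aeval_X]
  · exact vl_X y u j

theorem vl_mul {L : Type u} [Field L] [Algebra K L] (y : Fin (N + 1) → L) (u : Fin q → L) (c : L)
    {D : ℕ} {f : MvPolynomial (Fin q) (MvPolynomial (Fin (N + 1)) K)}
    (hf : ∀ μ, (coeff μ f).IsHomogeneous D) :
    vl (fun i => c * y i) u f = c ^ D * vl y u f := by
  rw [vl_apply, vl_apply, eval₂_eq', eval₂_eq', Finset.mul_sum]
  refine Finset.sum_congr rfl fun m _ => ?_
  have h1 : (aeval fun i => c * y i : MvPolynomial (Fin (N + 1)) K →ₐ[K] L).toRingHom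
      (coeff m f) = c ^ D * (aeval y : MvPolynomial (Fin (N + 1)) K →ₐ[K] L).toRingHom
        (coeff m f) := aeval_mul_homog (hf m) c y
  rw [h1]
  ring

theorem vl_map {L L' : Type u} [Field L] [Algebra K L] [Field L'] [Algebra K L']
    (φ : L →ₐ[K] L') (y : Fin (N + 1) → L) (u : Fin q → L)
    (f : MvPolynomial (Fin q) (MvPolynomial (Fin (N + 1)) K)) :
    vl (fun i => φ (y i)) (fun j => φ (u j)) f = φ (vl y u f) := by
  have h1 : (vl (fun i => φ (y i)) (fun j => φ (u j)) :
      MvPolynomial (Fin q) (MvPolynomial (Fin (N + 1)) K) →ₐ[K] L') = φ.comp (vl y u) := by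
    refine AlgHom.ext_of_adjoin_eq_top (gn_adjoin (K := K) (N := N) (q := q)) ?_
    rintro _ ⟨k, rfl⟩
    rw [AlgHom.comp_apply, vl_gn, vl_gn]
    rcases k with i | j <;> rfl
  rw [h1, AlgHom.comp_apply]

variable (A : AV K N)

theorem val_eq_vl {L : Type u} [Field L] [Algebra K L] (P : A.Pts L) (u : Fin q → L)
    (f : MvPolynomial (Fin q) (MvPolynomial (Fin (N + 1)) K)) :
    val A P u f = vl (A.x P) u f := rfl

theorem tdU_eq {L : Type u} [Field L] [Algebra K L] (P : A.Pts L) (u : Fin q → L) :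
    tdU A P u = Algebra.trdeg K (IntermediateField.adjoin K
      (Set.range (Sum.elim (rt (A.x P)) u))) := by
  unfold tdU
  rw [Set.Sum.elim_range]
  rfl

/-- L4. -/
theorem L4 {L : Type u} [Field L] [Algebra K L] (P : A.Pts L) (u : Fin q → L) :
    tdU A P u ≤ tdeg K (A.x P) + q := by
  obtain ⟨T, hT, -, hc⟩ := cl_basis (K := K) (Sum.elim (rt (A.x P)) u)
  obtain ⟨T', -, hT', hc'⟩ := cl_basis (K := K) (rt (A.x P))
  rw [tdU_eq, hc]
  have h0 : tdeg K (A.x P) = (Nat.card T' : Cardinal.{u}) := hc'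
  rw [h0]
  obtain ⟨-, h1⟩ := indep_card_le (K := K) _ hT
    (Sum.elim (fun t : T' => rt (A.x P) t) u : T' ⊕ Fin q → L) fun i => by
      rcases i with ⟨i | j, hi⟩
      · have h3 := hT' i
        rw [Set.image_eq_range] at h3
        refine cl_trans ?_ h3
        rintro _ ⟨t, rfl⟩
        exact cl_self (IntermediateField.subset_adjoin K _ ⟨Sum.inl t, rfl⟩)
      · exact cl_self (IntermediateField.subset_adjoin K _ ⟨Sum.inr j, rfl⟩)
  rw [Nat.card_sum, Nat.card_fin] at h1
  exact_mod_cast h1

/-- A prime ideal that is not irrelevant and a point. -/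
theorem L2 (p : Ideal (MvPolynomial (Fin q) (MvPolynomial (Fin (N + 1)) K))) [p.IsPrime]
    (hI : ∀ f ∈ A.I, C f ∈ p) (hX : ∀ j, X j ∉ p) {a : Fin (N + 1)} (ha : C (X a) ∉ p) :
    ∃ (F : Type u) (_ : Field F) (_ : Algebra K F) (P : A.Pts F) (u : Fin q → F),
      (∀ j, u j ≠ 0) ∧
      (∀ (f : MvPolynomial (Fin q) (MvPolynomial (Fin (N + 1)) K)) (D : ℕ),
        (∀ μ, (coeff μ f).IsHomogeneous D) → (val A P u f = 0 ↔ f ∈ p)) ∧
      Algebra.trdeg K (MvPolynomial (Fin q) (MvPolynomial (Fin (N + 1)) K) ⧸ p) ≤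
        tdU A P u + 1 := by
  let B := MvPolynomial (Fin q) (MvPolynomial (Fin (N + 1)) K) ⧸ p
  let F := FractionRing B
  let σ : B →ₐ[K] F := IsScalarTower.toAlgHom K B F
  have hσ : Function.Injective σ := IsFractionRing.injective B F
  let y : Fin (N + 1) → F := fun i => σ (Ideal.Quotient.mk p (C (X i)))
  let u : Fin q → F := fun j => σ (Ideal.Quotient.mk p (X j))
  have hv : ∀ f, vl (K := K) y u f = σ (Ideal.Quotient.mk p f) := by
    intro f
    have h1 : vl (K := K) y u = σ.comp (Ideal.Quotient.mkₐ K p) := by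
      refine AlgHom.ext_of_adjoin_eq_top (gn_adjoin (K := K) (N := N) (q := q)) ?_
      rintro _ ⟨k, rfl⟩
      rw [vl_gn]
      rcases k with i | j <;> rfl
    rw [h1]
    rfl
  have hv0 : ∀ f, vl (K := K) y u f = 0 ↔ f ∈ p := by
    intro f
    rw [hv, map_eq_zero_iff σ hσ, Ideal.Quotient.eq_zero_iff_mem]
  have hu : ∀ j, u j ≠ 0 := by
    intro j h
    rw [← vl_X (K := K) y u j, hv0] at h
    exact hX j h
  have hya : y a ≠ 0 := by
    intro h
    have h1 : vl (K := K) y u (C (X a)) = 0 := by rw [vl_C, aeval_X, h]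
    rw [hv0] at h1
    exact ha h1
  have hy : y ≠ 0 := fun h => hya (congrFun h a)
  have hpt : A.IsPt y := by
    intro f hf
    rw [← vl_C y u, hv0]
    exact hI f hf
  obtain ⟨P, c, hc, hP⟩ := AV.exists_rep hy hpt
  have hP' : y = fun i => c * A.x P i := funext hP
  refine ⟨F, inferInstance, inferInstance, P, u, hu, fun f D hf => ?_, ?_⟩
  · rw [val_eq_vl, ← hv0, hP', vl_mul _ _ c hf]
    constructor
    · intro h
      rw [h, mul_zero]
    · intro h
      exact (mul_eq_zero.1 h).resolve_left (pow_ne_zero _ hc)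
  · obtain ⟨T, hT, hT', hcard⟩ := cl_basis (K := K) (Sum.elim (rt (A.x P)) u)
    rw [tdU_eq, hcard]
    have h1 := cl_le σ hσ (gn K N q) gn_adjoin
      (Sum.elim (fun t : T => Sum.elim (rt (A.x P)) u t) (fun _ : Unit => y a) : T ⊕ Unit → F)
      fun k => by
        have hT1 : ∀ i, IsAlgebraic (IntermediateField.adjoin K (Set.range
            (Sum.elim (fun t : T => Sum.elim (rt (A.x P)) u t) (fun _ : Unit => y a) :
              T ⊕ Unit → F))) (Sum.elim (rt (A.x P)) u i) := by
          intro i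
          have h3 := hT' i
          rw [Set.image_eq_range] at h3
          refine cl_trans ?_ h3
          rintro _ ⟨t, rfl⟩
          exact cl_self (IntermediateField.subset_adjoin K _ ⟨Sum.inl t, rfl⟩)
        rcases k with i | j
        · show IsAlgebraic _ (y i)
          have h4 : y i = rt (A.x P) (i, a) * y a := by
            have h5 : A.x P a ≠ 0 := by
              intro h5
              rw [hP a, h5, mul_zero] at hya
              exact hya rfl
            rw [hP i, hP a]
            show c * A.x P i = A.x P i / A.x P a * (c * A.x P a)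
            rw [mul_left_comm, div_mul_cancel₀ _ h5]
          rw [h4]
          exact (hT1 (Sum.inl (i, a))).mul
            (cl_self (IntermediateField.subset_adjoin K _ ⟨Sum.inr (), rfl⟩))
        · exact hT1 (Sum.inr j)
    rw [Nat.card_sum, Nat.card_unique (α := Unit)] at h1
    exact_mod_cast h1

/-- L1: a point and a prime ideal that is not irrelevant. -/
theorem L1 {F : Type u} [Field F] [Algebra K F] (P : A.Pts F) (u : Fin q → F)
    (hu : ∀ j, u j ≠ 0) :
    ∃ p : Ideal (MvPolynomial (Fin q) (MvPolynomial (Fin (N + 1)) K)), p.IsPrime ∧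
      (∀ f ∈ A.I, C f ∈ p) ∧ (∀ j, X j ∉ p) ∧ (∃ a : Fin (N + 1), C (X a) ∉ p) ∧
      (∀ (f : MvPolynomial (Fin q) (MvPolynomial (Fin (N + 1)) K)) (D : ℕ),
        (∀ μ, (coeff μ f).IsHomogeneous D) → (val A P u f = 0 ↔ f ∈ p)) ∧
      tdU A P u + 1 ≤
        Algebra.trdeg K (MvPolynomial (Fin q) (MvPolynomial (Fin (N + 1)) K) ⧸ p) := by
  obtain ⟨a, ha⟩ : ∃ a, A.x P a ≠ 0 := by
    by_contra hcon
    push Not at hcon
    exact P.1.rep_nonzero (funext hcon)
  let Ω := FractionRing (Polynomial F)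
  have iΩ : IsScalarTower K F Ω := inferInstance
  let φ : F →ₐ[K] Ω := IsScalarTower.toAlgHom K F Ω
  let Λ : Ω := algebraMap (Polynomial F) Ω Polynomial.X
  have hΛ : Transcendental F Λ := by
    have h1 : Transcendental F (Polynomial.X : Polynomial F) := Polynomial.transcendental_X F
    exact (transcendental_algebraMap_iff (IsFractionRing.injective (Polynomial F) Ω)).2 h1
  have hΛ0 : Λ ≠ 0 := fun h => hΛ (by rw [h]; exact isAlgebraic_zero)
  let c : Ω := Λ * φ (A.x P a)⁻¹
  have hφa : φ (A.x P a) ≠ 0 := (map_ne_zero φ).2 ha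
  have hc : c ≠ 0 := mul_ne_zero hΛ0 ((map_ne_zero φ).2 (inv_ne_zero ha))
  let y : Fin (N + 1) → Ω := fun i => c * φ (A.x P i)
  have hya : y a = Λ := by
    show Λ * φ (A.x P a)⁻¹ * φ (A.x P a) = Λ
    rw [map_inv₀, mul_assoc, inv_mul_cancel₀ hφa, mul_one]
  let u' : Fin q → Ω := fun j => φ (u j)
  let p : Ideal (MvPolynomial (Fin q) (MvPolynomial (Fin (N + 1)) K)) :=
    RingHom.ker (vl (K := K) y u').toRingHom
  have hp : ∀ f, f ∈ p ↔ vl (K := K) y u' f = 0 := fun f => RingHom.mem_ker
  have hpr : p.IsPrime := RingHom.ker_isPrime _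
  refine ⟨p, hpr, fun f hf => ?_, fun j hj => ?_, ⟨a, fun h => ?_⟩, fun f D hf => ?_, ?_⟩
  · rw [hp, vl_C]
    exact (AV.IsPt.smul ((Z_x_isPt A P).map φ) c) f hf
  · rw [hp, vl_X] at hj
    exact hu j ((map_eq_zero φ).1 hj)
  · rw [hp, vl_C, aeval_X, hya] at h
    exact hΛ0 h
  · have h1 : vl (K := K) y u' f = c ^ D * φ (val A P u f) := by
      rw [vl_mul (fun i => φ (A.x P i)) u' c hf, vl_map φ (A.x P) u, val_eq_vl]
    rw [hp, h1]
    constructor
    · intro h
      rw [h, map_zero, mul_zero]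
    · intro h
      exact (map_eq_zero φ).1 ((mul_eq_zero.1 h).resolve_left (pow_ne_zero _ hc))
  · let σ : (MvPolynomial (Fin q) (MvPolynomial (Fin (N + 1)) K) ⧸ p) →ₐ[K] Ω :=
      Ideal.Quotient.liftₐ p (vl (K := K) y u') fun f hf => (hp f).1 hf
    have hσ : Function.Injective σ := by
      rw [injective_iff_map_eq_zero]
      intro b hb
      obtain ⟨f, rfl⟩ := Ideal.Quotient.mk_surjective b
      rw [Ideal.Quotient.eq_zero_iff_mem, hp]
      exact hb
    obtain ⟨T, hT, hT', hcard⟩ := cl_basis (K := K) (Sum.elim (rt (A.x P)) u)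
    rw [tdU_eq, hcard]
    have hx : AlgebraicIndependent F (fun _ : Unit => Λ) :=
      algebraicIndependent_unique_type_iff.2 hΛ
    have h1 : AlgebraicIndependent K (Sum.elim (fun _ : Unit => Λ)
        fun t : T => algebraMap F Ω (Sum.elim (rt (A.x P)) u t)) :=
      AlgebraicIndependent.sumElim_comp hT hx
    have h2 := cl_ge σ (gn K N q) _ h1 fun i => by
      have hg : ∀ k, σ (Ideal.Quotient.mk p (gn K N q k)) = Sum.elim y u' k := fun k =>
        vl_gn y u' k
      have hg' : (Set.range fun k => σ (Ideal.Quotient.mk p (gn K N q k))) =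
          Set.range (Sum.elim y u') := congrArg Set.range (funext hg)
      rw [hg']
      have hy : ∀ k, IsAlgebraic (IntermediateField.adjoin K (Set.range (Sum.elim y u')))
          (y k) := fun k => cl_self (IntermediateField.subset_adjoin K _ ⟨Sum.inl k, rfl⟩)
      rcases i with _ | ⟨t | j, ht⟩
      · show IsAlgebraic _ Λ
        rw [← hya]
        exact hy a
      · show IsAlgebraic _ (φ (rt (A.x P) t))
        have h3 : φ (rt (A.x P) t) = y t.1 * (y t.2)⁻¹ := by
          show φ (A.x P t.1 / A.x P t.2) = c * φ (A.x P t.1) * (c * φ (A.x P t.2))⁻¹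
          rw [map_div₀, mul_inv, div_eq_mul_inv, mul_mul_mul_comm, mul_inv_cancel₀ hc, one_mul]
        rw [h3]
        exact (hy _).mul (hy _).inv
      · exact cl_self (IntermediateField.subset_adjoin K _ ⟨Sum.inr j, rfl⟩)
    have h3 := h2.2
    rw [Nat.card_sum, Nat.card_unique (α := Unit)] at h3
    rw [add_comm]
    exact_mod_cast h3

end

end Pool.Agent.Lib.MP_17a322_nt.SV2
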