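import Pool.Agent.Lib.MP_17a322_nt.SV2.C2
import Pool.Agent.Lib.MP_17a322_nt.SV2.CL

/-!
Two general members.
-/

universe u

namespace Pool.Agent.Lib.MP_17a322_nt.SV2

open MvPolynomial
open Pool.Agent.Lib.MP_17a322_nt.VA
open Pool.Agent.Lib.MP_17a322_nt.VN

/-- The transcendence degree of a quotient by a larger prime ideal. -/
theorem c3_lt {k R : Type u} [Field k] [CommRing R] [Algebra k R] {p₀ p : Ideal R}
    [p₀.IsPrime] [p.IsPrime] (h : p₀ < p) :
    Algebra.trdeg k (R ⧸ p) + 1 ≤ Algebra.trdeg k (R ⧸ p₀) := by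
  let π : (R ⧸ p₀) →ₐ[k] R ⧸ p := Ideal.Quotient.factorₐ k h.le
  have hπ : Function.Surjective π := Ideal.Quotient.factor_surjective h.le
  have hpr : (RingHom.ker π.toRingHom).IsPrime := RingHom.ker_isPrime _
  have hne : RingHom.ker π.toRingHom ≠ ⊥ := by
    obtain ⟨f, hf, hf0⟩ := Set.exists_of_ssubset h
    intro h1
    have h2 : Ideal.Quotient.mk p₀ f ∈ RingHom.ker π.toRingHom := by
      rw [RingHom.mem_ker]
      exact Ideal.Quotient.eq_zero_iff_mem.2 hf
    rw [h1, Ideal.mem_bot, Ideal.Quotient.eq_zero_iff_mem] at h2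
    exact hf0 h2
  have h1 := C_trdeg' (k := k) (RingHom.ker π.toRingHom) hne
  let e : ((R ⧸ p₀) ⧸ RingHom.ker π.toRingHom) ≃ₐ[k] R ⧸ p :=
    Ideal.quotientKerAlgEquivOfSurjective hπ
  rw [← e.trdeg_eq]
  exact h1

theorem c3_le {k R : Type u} [Field k] [CommRing R] [Algebra k R] {p₀ p : Ideal R}
    (h : p₀ ≤ p) : Algebra.trdeg k (R ⧸ p) ≤ Algebra.trdeg k (R ⧸ p₀) :=
  trdeg_le_of_surjective (Ideal.Quotient.factorₐ k h) (Ideal.Quotient.factor_surjective h)

/-- `C_avoid` for arbitrary finite families. -/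
theorem C_avoid' {k V : Type*} [Field k] [CharZero k] [AddCommGroup V] [Module k V] {m : ℕ}
    {ι : Type*} [Finite ι] (w : Fin m → V) (U : ι → Submodule k V) (h : ∀ i, ∃ j, w j ∉ U i) :
    ∃ c : Fin m → ℤ, ∀ i, ∑ j, (c j : k) • w j ∉ U i := by
  obtain ⟨s, ⟨e⟩⟩ := Finite.exists_equiv_fin ι
  obtain ⟨c, hc⟩ := C_avoid w (fun i => U (e.symm i)) fun i => h (e.symm i)
  refine ⟨c, fun i => ?_⟩
  have h1 := hc (e i)
  rwa [Equiv.symm_apply_apply] at h1

section

variable {K : Type u} [Field K] {N q : ℕ} (A : AV K N)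

/-- The ideal of the polynomials with coefficients in `A.I`. -/
noncomputable def IR (q : ℕ) : Ideal (MvPolynomial (Fin q) (MvPolynomial (Fin (N + 1)) K)) :=
  RingHom.ker (MvPolynomial.map (σ := Fin q) (Ideal.Quotient.mk A.I))

theorem mem_IR {f : MvPolynomial (Fin q) (MvPolynomial (Fin (N + 1)) K)} :
    f ∈ IR A q ↔ ∀ μ, coeff μ f ∈ A.I := by
  unfold IR
  rw [RingHom.mem_ker, MvPolynomial.ext_iff]
  refine forall_congr' fun μ => ?_
  rw [coeff_map, coeff_zero, Ideal.Quotient.eq_zero_iff_mem]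

theorem c3_prime : A.I.IsPrime := by
  have h := A.prime K
  have h1 : MvPolynomial.map (σ := Fin (N + 1)) (algebraMap K K) = RingHom.id _ := by
    refine RingHom.ext fun p => ?_
    rw [Algebra.algebraMap_self, MvPolynomial.map_id, RingHom.id_apply]
  rwa [h1, Ideal.map_id] at h

theorem IR_prime : (IR A q).IsPrime := by
  have _ : A.I.IsPrime := c3_prime A
  exact RingHom.ker_isPrime _

theorem IR_le {p : Ideal (MvPolynomial (Fin q) (MvPolynomial (Fin (N + 1)) K))}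
    (h : ∀ f ∈ A.I, C f ∈ p) : IR A q ≤ p := by
  intro f hf
  rw [mem_IR] at hf
  rw [← support_sum_monomial_coeff f]
  refine Ideal.sum_mem _ fun μ _ => ?_
  have h1 : monomial μ (coeff μ f) = monomial μ (1 : MvPolynomial (Fin (N + 1)) K) *
      C (coeff μ f) := by
    rw [mul_comm, C_mul_monomial, mul_one]
  rw [h1]
  exact Ideal.mul_mem_left _ _ (h _ (hf μ))

/-- L3. -/
theorem L3 : ∃ (F : Type u) (_ : Field F) (_ : Algebra K F) (Q : A.Pts F),
    Algebra.trdeg K (MvPolynomial (Fin q) (MvPolynomial (Fin (N + 1)) K) ⧸ IR A q) ≤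
      tdeg K (A.x Q) + q + 1 := by
  classical
  have hpr := IR_prime A (q := q)
  have hAI : (1 : MvPolynomial (Fin (N + 1)) K) ∉ A.I := fun h =>
    (c3_prime A).ne_top ((Ideal.eq_top_iff_one _).2 h)
  obtain ⟨a, ha⟩ : ∃ a, A.x (0 : A.Pts K) a ≠ 0 := by
    by_contra hcon
    push Not at hcon
    exact (0 : A.Pts K).1.rep_nonzero (funext hcon)
  obtain ⟨F, i1, i2, P, u, -, -, h⟩ := L2 A (IR A q) (fun f hf => by
      rw [mem_IR]
      intro μ
      rw [coeff_C]
      split_ifs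
      · exact hf
      · exact A.I.zero_mem) (fun j hj => by
      rw [mem_IR] at hj
      have h1 := hj (Finsupp.single j 1)
      rw [coeff_X, if_pos rfl] at h1
      exact hAI h1) (a := a) (fun h => by
      rw [mem_IR] at h
      have h1 := h 0
      rw [coeff_C, if_pos rfl] at h1
      have h2 := Z_x_isPt A (0 : A.Pts K) _ h1
      rw [aeval_X] at h2
      exact ha h2)
  exact ⟨F, i1, i2, P, h.trans (add_le_add_left (L4 A P u) 1)⟩

/-- Linear combinations with integral coefficients. -/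
theorem c3_smul {m : ℕ} (c : Fin m → ℤ)
    (g : Fin m → MvPolynomial (Fin q) (MvPolynomial (Fin (N + 1)) K)) :
    ∑ k, (c k : K) • g k = ∑ k, (c k : MvPolynomial (Fin q) (MvPolynomial (Fin (N + 1)) K)) * g k := by
  refine Finset.sum_congr rfl fun k _ => ?_
  rw [Algebra.smul_def, map_intCast]

theorem c3_hom {m : ℕ} (c : Fin m → ℤ) {d₀ : ℕ}
    (g : Fin m → MvPolynomial (Fin q) (MvPolynomial (Fin (N + 1)) K))
    (hg : ∀ k μ, (coeff μ (g k)).IsHomogeneous d₀) (μ : Fin q →₀ ℕ) :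
    (coeff μ (∑ k, (c k : MvPolynomial (Fin q) (MvPolynomial (Fin (N + 1)) K)) *
      g k)).IsHomogeneous d₀ := by
  rw [coeff_sum]
  refine IsHomogeneous.sum _ _ _ fun k _ => ?_
  have h1 : (c k : MvPolynomial (Fin q) (MvPolynomial (Fin (N + 1)) K)) =
      C (C (c k : K)) := by rw [map_intCast, map_intCast]
  rw [h1, coeff_C_mul]
  have h2 := (isHomogeneous_C (Fin (N + 1)) (c k : K)).mul (hg k μ)
  rwa [zero_add] at h2

/-- C3: two general members. -/
theorem C_two [CharZero K] {m : ℕ} {d₀ : ℕ} {d : Fin q → ℕ}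
    (g : Fin m → MvPolynomial (Fin q) (MvPolynomial (Fin (N + 1)) K)) (hg : ∀ k, Bd d₀ d (g k))
    (hB : ∀ T : Finset (Fin q), ∃ k, coeff (fs (corner d T)) (g k) ∉ A.I)
    (hY : CodTwo A g) :
    ∃ c : Fin 2 → Fin m → ℤ,
      (∀ i T, coeff (fs (corner d T)) (∑ k, (c i k : MvPolynomial (Fin q)
        (MvPolynomial (Fin (N + 1)) K)) * g k) ∉ A.I) ∧
      CodTwo A (fun i => ∑ k, (c i k : MvPolynomial (Fin q)
        (MvPolynomial (Fin (N + 1)) K)) * g k) := by
  classical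
  have hghom : ∀ k μ, (coeff μ (g k)).IsHomogeneous d₀ := fun k => (hg k).1
  let UT : Finset (Fin q) → Submodule K (MvPolynomial (Fin q) (MvPolynomial (Fin (N + 1)) K)) :=
    fun T => (A.I.restrictScalars K).comap
      ((lcoeff (MvPolynomial (Fin (N + 1)) K) (fs (corner d T))).restrictScalars K)
  have hUT : ∀ T f, f ∈ UT T ↔ coeff (fs (corner d T)) f ∈ A.I := fun T f => Iff.rfl
  obtain ⟨c₀, hc₀⟩ := C_avoid' (k := K) g UT fun T => by
    obtain ⟨k, hk⟩ := hB T
    exact ⟨k, hk⟩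
  obtain ⟨g₀, hg₀⟩ : ∃ g₀, g₀ = ∑ k, (c₀ k : MvPolynomial (Fin q)
    (MvPolynomial (Fin (N + 1)) K)) * g k := ⟨_, rfl⟩
  have hc₀' : ∀ T, coeff (fs (corner d T)) g₀ ∉ A.I := by
    intro T h
    apply hc₀ T
    rw [hUT, c3_smul, ← hg₀]
    exact h
  let J : Ideal (MvPolynomial (Fin q) (MvPolynomial (Fin (N + 1)) K)) :=
    IR A q ⊔ Ideal.span {g₀}
  have hJfin : J.minimalPrimes.Finite := Ideal.finite_minimalPrimes_of_isNoetherianRing _ J
  let M : Set (Ideal (MvPolynomial (Fin q) (MvPolynomial (Fin (N + 1)) K))) :=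
    {p | p ∈ J.minimalPrimes ∧ ∃ k, g k ∉ p}
  have hMfin : Finite M := (hJfin.subset fun p hp => hp.1).to_subtype
  obtain ⟨c₁, hc₁⟩ := C_avoid' (k := K) g
    (Sum.elim UT fun p : M => p.1.restrictScalars K) fun i => by
      rcases i with T | p
      · obtain ⟨k, hk⟩ := hB T
        exact ⟨k, hk⟩
      · exact p.2.2
  obtain ⟨g₁, hg₁⟩ : ∃ g₁, g₁ = ∑ k, (c₁ k : MvPolynomial (Fin q)
    (MvPolynomial (Fin (N + 1)) K)) * g k := ⟨_, rfl⟩
  have hc₁' : ∀ T, coeff (fs (corner d T)) g₁ ∉ A.I := by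
    intro T h
    apply hc₁ (Sum.inl T)
    show _ ∈ UT T
    rw [hUT, c3_smul, ← hg₁]
    exact h
  have hc₁'' : ∀ p ∈ M, g₁ ∉ p := by
    intro p hp h
    apply hc₁ (Sum.inr ⟨p, hp⟩)
    show _ ∈ p
    rw [c3_smul, ← hg₁]
    exact h
  refine ⟨![c₀, c₁], ?_, ?_⟩
  · rw [Fin.forall_fin_two]
    exact ⟨fun T => by
      show coeff (fs (corner d T)) (∑ k, (c₀ k : MvPolynomial (Fin q)
        (MvPolynomial (Fin (N + 1)) K)) * g k) ∉ A.I
      rw [← hg₀]
      exact hc₀' T, fun T => by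
      show coeff (fs (corner d T)) (∑ k, (c₁ k : MvPolynomial (Fin q)
        (MvPolynomial (Fin (N + 1)) K)) * g k) ∉ A.I
      rw [← hg₁]
      exact hc₁' T⟩
  · intro F _ _ P u hu hval
    have h0 : val A P u g₀ = 0 := by
      rw [hg₀]
      exact hval 0
    have h1 : val A P u g₁ = 0 := by
      rw [hg₁]
      exact hval 1
    obtain ⟨p, hp, hpI, hpX, ⟨a, ha⟩, hpv, hptd⟩ := L1 A P u hu
    have hg₀p : g₀ ∈ p := (hpv g₀ d₀ (by rw [hg₀]; exact c3_hom c₀ g hghom)).1 h0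
    have hg₁p : g₁ ∈ p := (hpv g₁ d₀ (by rw [hg₁]; exact c3_hom c₁ g hghom)).1 h1
    have hJp : J ≤ p := sup_le (IR_le A hpI) ((Ideal.span_singleton_le_iff_mem _).2 hg₀p)
    obtain ⟨q₀, hq₀, hqp⟩ := Ideal.exists_minimalPrimes_le hJp
    have hq₀pr : q₀.IsPrime := hq₀.1.1
    have hJq : J ≤ q₀ := hq₀.1.2
    have hIq : IR A q ≤ q₀ := le_sup_left.trans hJq
    by_cases hall : ∀ k, g k ∈ q₀
    · obtain ⟨F'', i1, i2, P'', u'', hu'', hv'', htd''⟩ := L2 A q₀ (fun f hf => hIq (by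
          rw [mem_IR]
          intro μ
          rw [coeff_C]
          split_ifs
          · exact hf
          · exact A.I.zero_mem)) (fun j h => hpX j (hqp h)) (a := a) fun h => ha (hqp h)
      obtain ⟨F', i3, i4, Q, hQ⟩ := hY F'' P'' u'' hu'' fun k =>
        (hv'' (g k) d₀ (hghom k)).2 (hall k)
      refine ⟨F', i3, i4, Q, le_trans ?_ hQ⟩
      have h3 : tdU A P u + 1 ≤ tdU A P'' u'' + 1 :=
        (hptd.trans (c3_le hqp)).trans htd''
      have h4 : tdU A P u ≤ tdU A P'' u'' := (Cardinal.add_le_add_iff_of_lt_aleph0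
        Cardinal.one_lt_aleph0).1 h3
      exact add_le_add_left h4 2
    · push Not at hall
      have hqM : q₀ ∈ M := ⟨hq₀, hall⟩
      have hne : q₀ < p := lt_of_le_of_ne hqp fun h => hc₁'' q₀ hqM (h ▸ hg₁p)
      have hne' : IR A q < q₀ := by
        refine lt_of_le_of_ne hIq fun h => ?_
        have h3 : g₀ ∈ q₀ := hJq (Ideal.mem_sup_right (Ideal.mem_span_singleton_self _))
        rw [← h, mem_IR] at h3
        exact hc₀' ∅ (h3 _)
      have _ := IR_prime A (q := q)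
      obtain ⟨F', i3, i4, Q, hQ⟩ := L3 A (q := q)
      refine ⟨F', i3, i4, Q, ?_⟩
      have h3 := c3_lt (k := K) hne
      have h4 := c3_lt (k := K) hne'
      have h5 : tdU A P u + 2 + 1 ≤ tdeg K (A.x Q) + q + 1 := by
        refine le_trans ?_ hQ
        refine le_trans ?_ h4
        have h6 : tdU A P u + 2 + 1 = tdU A P u + 1 + 1 + 1 := by
          rw [← one_add_one_eq_two]
          ring
        rw [h6]
        exact add_le_add_left ((add_le_add_left hptd 1).trans h3) 1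
      exact (Cardinal.add_le_add_iff_of_lt_aleph0 Cardinal.one_lt_aleph0).1 h5

end

end Pool.Agent.Lib.MP_17a322_nt.SV2
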