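import Pool.Agent.Lib.MP_17a322_nt.SL.FDefs

/-!
Vojta's inequality over `A × G_m ^ q`: definitions.

Laurent polynomials in `u_1, ..., u_q` are replaced by polynomials; the coefficients are forms in the
coordinates of `A`.
-/

universe u

namespace Pool.Agent.Lib.MP_17a322_nt.SV2

open MvPolynomial Height
open Pool.Agent.Lib.MP_17a322_nt.VA
open Pool.Agent.Lib.MP_17a322_nt.SL

/-! ### Exponents -/

/-- A vector of exponents. -/
noncomputable def fs {q : ℕ} (a : Fin q → ℕ) : Fin q →₀ ℕ := Finsupp.equivFunOnFinite.symm a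

/-- The exponents between `0` and `M`. -/
abbrev Box (q M : ℕ) : Type := Fin q → Fin (M + 1)

/-- The exponents `b` with `b + d` in the box. -/
abbrev Rw (q M : ℕ) (d : Fin q → ℕ) : Type := {b : Box q M // ∀ j, (b j : ℕ) + d j ≤ M}

/-- The exponents between `0` and `d`. -/
abbrev Cf (q : ℕ) (d : Fin q → ℕ) : Type := (j : Fin q) → Fin (d j + 1)

/-- A corner of the box. -/
def corner {q : ℕ} (d : Fin q → ℕ) (T : Finset (Fin q)) : Fin q → ℕ :=
  fun j => if j ∈ T then d j else 0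

/-- The rows `h ↦ (g 1 * h, - g 0 * h)`, `h` a monomial. -/
noncomputable def Tm {q : ℕ} {R : Type*} [CommRing R] (M : ℕ) (d : Fin q → ℕ)
    (g : Fin 2 → MvPolynomial (Fin q) R) : Matrix (Rw q M d) (Fin 2 × Box q M) R :=
  Matrix.of fun b p => coeff (fs fun j => (p.2 j : ℕ))
    (monomial (fs fun j => (b.1 j : ℕ)) 1 * (![g 1, - g 0] : Fin 2 → _) p.1)

/-- The coordinates `(i, a)` with `i = 1` or `a` not in `corner d T + Rw q M d`. -/
def Jc {q : ℕ} (M : ℕ) (d : Fin q → ℕ) (T : Finset (Fin q)) : Finset (Fin 2 × Box q M) :=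
  open Classical in
  Finset.univ.filter fun p =>
    ¬ (p.1 = 0 ∧ ∃ b : Rw q M d, ∀ j, (p.2 j : ℕ) = (b.1 j : ℕ) + corner d T j)

/-- The monomial `u ^ a`. -/
noncomputable def mn {q M : ℕ} {R : Type*} [CommMonoid R] (u : Fin q → R) (a : Box q M) : R :=
  ∏ j, u j ^ (a j : ℕ)

/-! ### Polynomials over the coordinate ring of `A` -/

section

variable {K : Type u} [Field K] {N q : ℕ}

/-- All coefficients of `Q` are forms of degree `D`, and the degree in the `j`-th variable is at most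
`d j`. -/
def Bd (D : ℕ) (d : Fin q → ℕ) (Q : MvPolynomial (Fin q) (MvPolynomial (Fin (N + 1)) K)) : Prop :=
  (∀ μ, (coeff μ Q).IsHomogeneous D) ∧ ∀ j, degreeOf j Q ≤ d j

variable (A : AV K N)

/-- The polynomial `Q` at the point `P` of `A`. -/
noncomputable def sp {L : Type u} [Field L] [Algebra K L] (P : A.Pts L)
    (Q : MvPolynomial (Fin q) (MvPolynomial (Fin (N + 1)) K)) : MvPolynomial (Fin q) L :=
  MvPolynomial.map (aeval (A.x P)).toRingHom Q

/-- The value of `Q` at the point `(P, u)` of `A × G_m ^ q`. -/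
noncomputable def val {L : Type u} [Field L] [Algebra K L] (P : A.Pts L) (u : Fin q → L)
    (Q : MvPolynomial (Fin q) (MvPolynomial (Fin (N + 1)) K)) : L :=
  eval₂ (aeval (A.x P)).toRingHom u Q

/-- `G` does not vanish identically on `A × G_m ^ q`. -/
def ExcU (G : MvPolynomial (Fin q) (MvPolynomial (Fin (N + 1)) K)) : Prop :=
  (∃ D : ℕ, ∀ μ, (coeff μ G).IsHomogeneous D) ∧ ∃ μ, coeff μ G ∉ A.I

/-- The transcendence degree over `K` of the point `(P, u)`. -/
noncomputable def tdU {F : Type u} [Field F] [Algebra K F] (P : A.Pts F) (u : Fin q → F) :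
    Cardinal.{u} :=
  Algebra.trdeg K (IntermediateField.adjoin K
    ((Set.range fun p : Fin (N + 1) × Fin (N + 1) => A.x P p.1 / A.x P p.2) ∪ Set.range u))

/-- The common zeros of the `g k` in `A × G_m ^ q` have codimension at least two. -/
def CodTwo {m : ℕ} (g : Fin m → MvPolynomial (Fin q) (MvPolynomial (Fin (N + 1)) K)) : Prop :=
  ∀ (F : Type u) [Field F] [Algebra K F] (P : A.Pts F) (u : Fin q → F), (∀ j, u j ≠ 0) →
    (∀ k, val A P u (g k) = 0) →
    ∃ (F' : Type u) (_ : Field F') (_ : Algebra K F') (Q : A.Pts F'),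
      tdU A P u + 2 ≤ tdeg K (A.x Q) + q

end

/-! ### Bundles with arbitrary finite sets of indices -/

section

variable {K : Type u} [Field K] {N : ℕ} (A : AV K N) {γ ι σ : Type} [Fintype ι]

/-- See `SL.Fib`. -/
def FibT (G : Matrix γ ι (MvPolynomial (Fin (N + 1)) K)) {L : Type u} [Field L]
    [Algebra K L] (P : A.Pts L) : Set (ι → L) :=
  {X | ∀ i, ∑ l, aeval (A.x P) (G i l) * X l = 0}

/-- See `SL.Ind`. -/
def IndT (G : Matrix γ ι (MvPolynomial (Fin (N + 1)) K))
    (Λ : Matrix σ ι (MvPolynomial (Fin (N + 1)) K)) (T : Finset σ) : Prop :=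
  ∀ (L : Type u) [Field L] [Algebra K L] (P : A.Pts L), Gen A P →
    LinearIndependent L (Sum.elim (fun (i : γ) (l : ι) => aeval (A.x P) (G i l))
      fun (j : T) (l : ι) => aeval (A.x P) (Λ j l))

/-- See `SL.Exc`. -/
def ExcT (G : Matrix γ ι (MvPolynomial (Fin (N + 1)) K))
    (F : MvPolynomial (Fin (N + 1) ⊕ ι) K) : Prop :=
  (∃ a b : ℕ, ∀ m ∈ F.support, ∑ i, m (Sum.inl i) = a ∧ ∑ l, m (Sum.inr l) = b) ∧
  ∀ (L : Type u) [Field L] [IsAlgClosed L] [Algebra K L] (P : A.Pts L), Gen A P →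
    ∃ (c : L) (m : ℕ) (y : Fin m → ι → L), c ≠ 0 ∧
      (∀ k, ∃ z ∈ FibT A G P, ∑ l, y k l * z l ≠ 0) ∧
      aeval (Sum.elim (fun i => (C (A.x P i) : MvPolynomial ι L)) X) F =
        C c * ∏ k, ∑ l, C (y k l) * X l

/-- See `SL.lam`. -/
noncomputable def lamT {L : Type u} [Field L] [Algebra K L] (v : AbsoluteValue L ℝ) (D : ℕ)
    (Λ : ι → MvPolynomial (Fin (N + 1)) K) (P : A.Pts L) (X : ι → L) : ℝ :=
  Real.log (⨆ l, v (X l)) + D * Real.log (⨆ i, v (A.x P i)) -
    Real.log (v (∑ l, aeval (A.x P) (Λ l) * X l))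

/-- The height of the space `E_P`. -/
noncomputable def hET [Fintype γ] [DecidableEq γ] [NumberField K]
    (G : Matrix γ ι (MvPolynomial (Fin (N + 1)) K)) (P : A.Pts K) : ℝ :=
  logHeight fun e : γ ↪ ι => (Matrix.of fun a b => aeval (A.x P) (G a (e b))).det

end

/-! ### Places -/

section

variable {K : Type u} [Field K] [NumberField K]

/-- The sum over the infinite places (with multiplicity) and the places in `S`. -/
noncomputable def ps (S : Finset (NumberField.FinitePlace K)) (φ : AbsoluteValue K ℝ → ℝ) : ℝ :=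
  (∑ v : NumberField.InfinitePlace K, (v.mult : ℝ) * φ v.val) + ∑ v ∈ S, φ v.val

/-- The sum of `|log |u_j|_v|` over the finite places outside `S`. -/
noncomputable def NS {q : ℕ} (S : Finset (NumberField.FinitePlace K)) (u : Fin q → K) : ℝ :=
  ∑ j, ∑ᶠ v : {v : NumberField.FinitePlace K // v ∉ S}, |Real.log (v.1 (u j))|

/-- The indices with `|u_j|_v > 1`. -/
noncomputable def Tv {q : ℕ} (v : AbsoluteValue K ℝ) (u : Fin q → K) : Finset (Fin q) :=
  open Classical in Finset.univ.filter fun j => 1 < v (u j)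

/-- The logarithm of the maximum of `|u ^ c|_v` for `0 ≤ c ≤ d`. -/
noncomputable def sz {q : ℕ} (d : Fin q → ℕ) (v : AbsoluteValue K ℝ) (u : Fin q → K) : ℝ :=
  ∑ j, (d j : ℝ) * Real.log (max 1 (v (u j)))

end

end Pool.Agent.Lib.MP_17a322_nt.SV2
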