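import Pool.Agent.Lib.MP_17a322_nt.SV2.Defs

/-!
The rows `Tm`: linear algebra.
-/

universe u

namespace Pool.Agent.Lib.MP_17a322_nt.SV2

open MvPolynomial

section

variable {q : ℕ} {M : ℕ} {d : Fin q → ℕ}

/-- The exponent of an element of the box. -/
noncomputable abbrev be (a : Box q M) : Fin q →₀ ℕ := fs fun j => (a j : ℕ)

theorem fs_apply (a : Fin q → ℕ) (j : Fin q) : fs a j = a j := rfl

theorem fs_inj {a b : Fin q → ℕ} (h : fs a = fs b) : a = b :=
  Finsupp.equivFunOnFinite.symm.injective h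

theorem be_inj : Function.Injective (be : Box q M → Fin q →₀ ℕ) := by
  intro a b h
  funext j
  have h1 := congrFun (fs_inj h) j
  exact Fin.ext h1

theorem exists_be {m : Fin q →₀ ℕ} (h : ∀ j, m j ≤ M) : ∃ a : Box q M, be a = m := by
  refine ⟨fun j => ⟨m j, by have := h j; omega⟩, ?_⟩
  ext j
  rfl

theorem le_deg {R : Type*} [CommSemiring R] {Q : MvPolynomial (Fin q) R} {m : Fin q →₀ ℕ}
    (h : coeff m Q ≠ 0) (j : Fin q) : m j ≤ degreeOf j Q :=
  monomial_le_degreeOf j (mem_support_iff.2 h)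

/-- A polynomial as a sum over the box. -/
theorem sum_box {R : Type*} [CommSemiring R] {Q : MvPolynomial (Fin q) R}
    (hQ : ∀ j, degreeOf j Q ≤ M) : ∑ a : Box q M, monomial (be a) (coeff (be a) Q) = Q := by
  classical
  ext m
  rw [coeff_sum]
  simp only [coeff_monomial]
  by_cases h : coeff m Q = 0
  · rw [h]
    refine Finset.sum_eq_zero fun a _ => ?_
    split_ifs with h1
    · rw [h1, h]
    · rfl
  · obtain ⟨a, ha⟩ := exists_be (M := M) (m := m) fun j => (le_deg h j).trans (hQ j)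
    rw [Finset.sum_eq_single a]
    · rw [if_pos ha, ha]
    · intro b _ hb
      rw [if_neg]
      intro h1
      exact hb (be_inj (h1.trans ha.symm))
    · intro h1
      exact absurd (Finset.mem_univ a) h1

theorem eval_mon {R : Type*} [CommRing R] (u : Fin q → R) (a : Box q M) (c : R) :
    eval u (monomial (be a) c) = c * mn u a := by
  rw [eval_monomial, mn, Finsupp.prod_fintype]
  · rfl
  · intro i
    exact pow_zero _

/-- G1. -/
theorem eval_box {R : Type*} [CommRing R] {Q : MvPolynomial (Fin q) R}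
    (hQ : ∀ j, degreeOf j Q ≤ M) (u : Fin q → R) :
    ∑ a : Box q M, coeff (fs fun j => (a j : ℕ)) Q * mn u a = eval u Q := by
  conv_rhs => rw [← sum_box hQ]
  rw [map_sum]
  exact Finset.sum_congr rfl fun a _ => (eval_mon u a _).symm

theorem deg_row {R : Type*} [CommRing R] {Q : MvPolynomial (Fin q) R}
    (hQ : ∀ j, degreeOf j Q ≤ d j) (b : Rw q M d) (j : Fin q) :
    degreeOf j (monomial (be b.1) (1 : R) * Q) ≤ M := by
  have h1 : degreeOf j (monomial (be b.1) (1 : R)) ≤ b.1 j := by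
    classical
    rw [degreeOf_eq_sup, Finset.sup_le_iff]
    intro m hm
    have h2 := support_monomial_subset hm
    rw [Finset.mem_singleton] at h2
    rw [h2]
    exact le_rfl
  have h2 := degreeOf_mul_le j (monomial (be b.1) (1 : R)) Q
  have h3 := hQ j
  have h4 := b.2 j
  omega

theorem deg_neg' {R : Type*} [CommRing R] {Q : MvPolynomial (Fin q) R} {c : ℕ} {j : Fin q}
    (h : degreeOf j Q ≤ c) : degreeOf j (-Q) ≤ c := by
  classical
  rw [degreeOf_eq_sup, support_neg, ← degreeOf_eq_sup]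
  exact h

/-- G2: the rows annihilate `(g i (u) u ^ a)`. -/
theorem Tm_fib {R : Type*} [CommRing R] (g : Fin 2 → MvPolynomial (Fin q) R)
    (hg : ∀ i j, degreeOf j (g i) ≤ d j) (u : Fin q → R) (b : Rw q M d) :
    ∑ p : Fin 2 × Box q M, Tm M d g b p * (eval u (g p.1) * mn u p.2) = 0 := by
  rw [Fintype.sum_prod_type, Fin.sum_univ_two]
  have h1 : ∀ i (Q : MvPolynomial (Fin q) R), (∀ j, degreeOf j Q ≤ d j) →
      ∑ a : Box q M, coeff (be a) (monomial (be b.1) 1 * Q) * (eval u (g i) * mn u a) =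
        eval u (g i) * (mn u b.1 * eval u Q) := by
    intro i Q hQ
    have h2 := eval_box (M := M) (deg_row hQ b) u
    rw [map_mul, eval_mon, one_mul] at h2
    rw [← h2, Finset.mul_sum]
    exact Finset.sum_congr rfl fun a _ => by ring
  have h2 := h1 0 (g 1) (hg 1)
  have h3 := h1 1 (- g 0) (fun j => deg_neg' (hg 0 j))
  have h4 : ∀ i, ∀ a : Box q M, Tm M d g b (i, a) =
      coeff (be a) (monomial (be b.1) 1 * (![g 1, - g 0] : Fin 2 → _) i) := fun _ _ => rfl
  simp only [h4, Matrix.cons_val_zero, Matrix.cons_val_one, h2, h3, map_neg]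
  ring

theorem corner_le (d : Fin q → ℕ) (T : Finset (Fin q)) (j : Fin q) : corner d T j ≤ d j := by
  unfold corner
  split_ifs <;> omega

/-- The position `corner + b` in the coordinates with `i = 0`. -/
def kap (T : Finset (Fin q)) (b : Rw q M d) : Fin 2 × Box q M :=
  (0, fun j => ⟨(b.1 j : ℕ) + corner d T j, by
    have h1 := b.2 j
    have h2 := corner_le d T j
    omega⟩)

theorem kap_inj (T : Finset (Fin q)) : Function.Injective (kap (M := M) (d := d) T) := by
  intro b b' h
  have h1 := congrArg Prod.snd h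
  apply Subtype.ext
  funext j
  have h2 := congrArg Fin.val (congrFun h1 j)
  simp only [kap] at h2
  apply Fin.ext
  omega

theorem mem_Jc {T : Finset (Fin q)} {p : Fin 2 × Box q M} :
    p ∈ Jc M d T ↔ ∀ b : Rw q M d, kap T b ≠ p := by
  classical
  unfold Jc
  rw [Finset.mem_filter]
  simp only [Finset.mem_univ, true_and]
  constructor
  · rintro h b rfl
    exact h ⟨rfl, b, fun j => rfl⟩
  · rintro h ⟨h1, b, hb⟩
    refine h b ?_
    ext j
    · rw [h1]; rfl
    · exact (hb j).symm

theorem Jc_eq (T : Finset (Fin q)) [DecidableEq (Fin 2 × Box q M)] :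
    Jc M d T = (Finset.univ.image (kap (M := M) (d := d) T))ᶜ := by
  ext p
  rw [mem_Jc]
  simp

theorem sum_Jc {B : Type*} [AddCommGroup B] (T : Finset (Fin q)) (φ : Fin 2 × Box q M → B) :
    ∑ p ∈ Jc M d T, φ p = ∑ p, φ p - ∑ b : Rw q M d, φ (kap T b) := by
  classical
  rw [Jc_eq, eq_sub_iff_add_eq, ← Finset.sum_image (f := φ) (s := Finset.univ)
    (g := kap (M := M) (d := d) T) (fun a _ b _ h => kap_inj T h)]
  rw [add_comm]
  exact Finset.sum_add_sum_compl _ _

theorem Jc_card (T : Finset (Fin q)) : (Jc M d T).card + Fintype.card (Rw q M d) =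
    Fintype.card (Fin 2 × Box q M) := by
  classical
  have h1 := sum_Jc (M := M) (d := d) (B := ℤ) T (fun _ => 1)
  simp only [Finset.sum_const, Finset.card_univ, mul_one, nsmul_eq_mul] at h1
  omega

/-- G4: the sum of the exponents in `Jc`. -/
theorem Jc_sum (T : Finset (Fin q)) (l : Fin q → ℝ) :
    ∑ p ∈ Jc M d T, ∑ j, (p.2 j : ℝ) * l j =
      2 * ∑ a : Box q M, ∑ j, (a j : ℝ) * l j -
        ∑ b : Rw q M d, ∑ j, (b.1 j : ℝ) * l j -
        Fintype.card (Rw q M d) * ∑ j, (corner d T j : ℝ) * l j := by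
  classical
  rw [sum_Jc, Fintype.sum_prod_type, Fin.sum_univ_two]
  have h1 : ∀ b : Rw q M d, ∑ j, (((kap T b).2 j : ℕ) : ℝ) * l j =
      ∑ j, (b.1 j : ℝ) * l j + ∑ j, (corner d T j : ℝ) * l j := by
    intro b
    rw [← Finset.sum_add_distrib]
    refine Finset.sum_congr rfl fun j _ => ?_
    simp only [kap]
    push_cast
    ring
  simp only [h1]
  rw [Finset.sum_add_distrib, Finset.sum_const, Finset.card_univ, nsmul_eq_mul]
  ring

theorem Rw_card (hM : ∀ j, d j ≤ M) : Fintype.card (Rw q M d) = ∏ j, (M + 1 - d j) := by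
  classical
  have e : Rw q M d ≃ ((j : Fin q) → Fin (M + 1 - d j)) :=
    { toFun := fun b j => ⟨b.1 j, by have := b.2 j; omega⟩
      invFun := fun b => ⟨fun j => ⟨b j, by have := (b j).2; omega⟩, fun j => by
        have := (b j).2
        have := hM j
        simp only
        omega⟩
      left_inv := fun b => rfl
      right_inv := fun b => rfl }
  rw [Fintype.card_congr e, Fintype.card_pi]
  simp

theorem prod_ge {ι : Type*} (s : Finset ι) (x : ι → ℝ) (h0 : ∀ i ∈ s, 0 ≤ x i)
    (h1 : ∀ i ∈ s, x i ≤ 1) : 1 - ∑ i ∈ s, x i ≤ ∏ i ∈ s, (1 - x i) := by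
  classical
  induction s using Finset.induction_on with
  | empty => simp
  | insert a s ha ih =>
    rw [Finset.sum_insert ha, Finset.prod_insert ha]
    have h2 := ih (fun i hi => h0 i (Finset.mem_insert_of_mem hi))
      (fun i hi => h1 i (Finset.mem_insert_of_mem hi))
    have h3 := h0 a (Finset.mem_insert_self _ _)
    have h4 := h1 a (Finset.mem_insert_self _ _)
    have h5 : 0 ≤ ∑ i ∈ s, x i :=
      Finset.sum_nonneg fun i hi => h0 i (Finset.mem_insert_of_mem hi)
    have h6 : (1 - x a) * (1 - ∑ i ∈ s, x i) ≤ (1 - x a) * ∏ i ∈ s, (1 - x i) :=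
      mul_le_mul_of_nonneg_left h2 (by linarith)
    nlinarith

/-- G5. -/
theorem Rw_card_ge (hM : ∀ j, d j ≤ M) :
    ((M : ℝ) + 1) ^ q * (1 - (∑ j, (d j : ℝ)) / (M + 1)) ≤ Fintype.card (Rw q M d) := by
  have hM0 : (0 : ℝ) < (M : ℝ) + 1 := by positivity
  rw [Rw_card hM]
  push_cast
  have h1 : ∀ j, ((M + 1 - d j : ℕ) : ℝ) = ((M : ℝ) + 1) * (1 - (d j : ℝ) / (M + 1)) := by
    intro j
    rw [Nat.cast_sub (by have := hM j; omega)]
    push_cast
    field_simp
  simp only [h1]
  rw [Finset.prod_mul_distrib, Finset.prod_const, Finset.card_univ, Fintype.card_fin,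
    Finset.sum_div]
  refine mul_le_mul_of_nonneg_left ?_ (by positivity)
  refine prod_ge _ _ (fun j _ => by positivity) (fun j _ => ?_)
  rw [div_le_one hM0]
  have := hM j
  have h2 : (d j : ℝ) ≤ M := by exact_mod_cast this
  linarith

theorem Rw_card_le : (Fintype.card (Rw q M d) : ℝ) ≤ ((M : ℝ) + 1) ^ q := by
  have h1 : Fintype.card (Rw q M d) ≤ Fintype.card (Box q M) :=
    Fintype.card_le_of_injective _ Subtype.val_injective
  have h2 : Fintype.card (Box q M) = (M + 1) ^ q := by simp [Box]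
  rw [h2] at h1
  exact_mod_cast h1

theorem col_card : Fintype.card (Fin 2 × Box q M) = 2 * (M + 1) ^ q := by simp [Box]

end

end Pool.Agent.Lib.MP_17a322_nt.SV2
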