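import Pool.Agent.Lib.MP_17a322_nt.SV2.G1

/-!
The rows `Tm`: independence and coprimality.
-/

universe u

namespace Pool.Agent.Lib.MP_17a322_nt.SV2

open MvPolynomial

section

variable {q : ℕ} {M : ℕ} {d : Fin q → ℕ}

theorem Tm_zero {R : Type*} [CommRing R] (g : Fin 2 → MvPolynomial (Fin q) R) (b : Rw q M d)
    (a : Box q M) : Tm M d g b (0, a) = coeff (be a) (monomial (be b.1) 1 * g 1) := rfl

theorem Tm_one {R : Type*} [CommRing R] (g : Fin 2 → MvPolynomial (Fin q) R) (b : Rw q M d)
    (a : Box q M) : Tm M d g b (1, a) = - coeff (be a) (monomial (be b.1) 1 * g 0) := by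
  have h1 : Tm M d g b (1, a) = coeff (be a) (monomial (be b.1) 1 * - g 0) := rfl
  rw [h1, mul_neg, coeff_neg]

/-- The weight for the triangularity. -/
def wgt (T : Finset (Fin q)) (b : Rw q M d) : ℕ := ∑ j, if j ∈ T then M - (b.1 j : ℕ) else b.1 j

/-- The coefficient at `corner + b'`. -/
theorem row_corner {R : Type*} [CommRing R] {Q : MvPolynomial (Fin q) R}
    (hQ : ∀ j, degreeOf j Q ≤ d j) (T : Finset (Fin q)) (b b' : Rw q M d)
    (h : coeff (be (kap T b').2) (monomial (be b.1) 1 * Q) ≠ 0) (hne : b ≠ b') :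
    wgt T b < wgt T b' := by
  rw [coeff_monomial_mul'] at h
  split_ifs at h with hle
  swap
  · exact absurd rfl h
  rw [one_mul] at h
  have h1 : ∀ j, (b.1 j : ℕ) ≤ (b'.1 j : ℕ) + corner d T j := fun j => hle j
  have h2 : ∀ j, (b'.1 j : ℕ) + corner d T j - (b.1 j : ℕ) ≤ d j := fun j =>
    (le_deg h j).trans (hQ j)
  have h3 : ∀ j, (if j ∈ T then M - (b.1 j : ℕ) else (b.1 j : ℕ)) ≤
      (if j ∈ T then M - (b'.1 j : ℕ) else (b'.1 j : ℕ)) := by
    intro j
    have e1 := h1 j
    have e2 := h2 j
    unfold corner at e1 e2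
    split_ifs at e1 e2 ⊢ with hj <;> omega
  obtain ⟨j₀, hj₀⟩ : ∃ j, (b.1 j : ℕ) ≠ b'.1 j := by
    by_contra h4
    push Not at h4
    exact hne (Subtype.ext (funext fun j => Fin.ext (h4 j)))
  refine Finset.sum_lt_sum (fun j _ => h3 j) ⟨j₀, Finset.mem_univ _, ?_⟩
  have e1 := h1 j₀
  have e2 := h2 j₀
  have e3 := (b.1 j₀).2
  have e4 := (b'.1 j₀).2
  unfold corner at e1 e2
  split_ifs at e1 e2 ⊢ with hj <;> omega

theorem row_diag {R : Type*} [CommRing R] (Q : MvPolynomial (Fin q) R) (T : Finset (Fin q))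
    (b : Rw q M d) : coeff (be (kap T b).2) (monomial (be b.1) 1 * Q) =
      coeff (fs (corner d T)) Q := by
  have h1 : be (kap T b).2 = be b.1 + fs (corner d T) := by
    ext j
    rfl
  rw [h1, coeff_monomial_mul, one_mul]

/-- G3: triangularity. -/
theorem Tm_ind {L : Type*} [Field L] (g : Fin 2 → MvPolynomial (Fin q) L)
    (hg : ∀ i j, degreeOf j (g i) ≤ d j) (T : Finset (Fin q))
    (h : coeff (fs (corner d T)) (g 1) ≠ 0) :
    LinearIndependent L (Sum.elim (fun (b : Rw q M d) p => Tm M d g b p)
      fun (j : Jc M d T) => (Pi.single j.1 1 : Fin 2 × Box q M → L)) := by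
  classical
  rw [Fintype.linearIndependent_iff]
  intro c hc
  have h0 : ∀ b : Rw q M d, c (Sum.inl b) = 0 := by
    by_contra h1
    push Not at h1
    have hne : (Finset.univ.filter fun b : Rw q M d => c (Sum.inl b) ≠ 0).Nonempty := by
      obtain ⟨b, hb⟩ := h1
      exact ⟨b, by simpa using hb⟩
    obtain ⟨b', hb', hmin⟩ := Finset.exists_min_image _ (wgt T) hne
    rw [Finset.mem_filter] at hb'
    have h2 := congrFun hc (kap T b')
    rw [Fintype.sum_sum_type, Pi.add_apply, Finset.sum_apply, Finset.sum_apply,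
      Pi.zero_apply] at h2
    simp only [Sum.elim_inl, Sum.elim_inr, Pi.smul_apply, smul_eq_mul] at h2
    have h3 : ∑ x : Jc M d T, c (Sum.inr x) *
        (Pi.single x.1 1 : Fin 2 × Box q M → L) (kap T b') = 0 := by
      refine Finset.sum_eq_zero fun x _ => ?_
      rw [Pi.single_apply, if_neg, mul_zero]
      intro h4
      exact (mem_Jc.1 x.2) b' h4
    rw [h3, add_zero, Finset.sum_eq_single b'] at h2
    · have h4 : Tm M d g b' (kap T b') = coeff (fs (corner d T)) (g 1) := row_diag _ T b'
      rw [h4] at h2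
      exact hb'.2 (by simpa [h] using h2)
    · intro b _ hb
      by_contra h4
      have h5 : c (Sum.inl b) ≠ 0 := left_ne_zero_of_mul h4
      have h6 : Tm M d g b (kap T b') ≠ 0 := right_ne_zero_of_mul h4
      have h7 := row_corner (hg 1) T b b' h6 hb
      have h8 := hmin b (by simpa using h5)
      omega
    · intro h4
      exact absurd (Finset.mem_univ _) h4
  intro i
  rcases i with b | p
  · exact h0 b
  · have h2 := congrFun hc p.1
    rw [Fintype.sum_sum_type, Pi.add_apply, Finset.sum_apply, Finset.sum_apply,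
      Pi.zero_apply] at h2
    simp only [Sum.elim_inl, Sum.elim_inr, Pi.smul_apply, smul_eq_mul, h0, zero_mul,
      Finset.sum_const_zero, zero_add] at h2
    rw [Finset.sum_eq_single p] at h2
    · simpa using h2
    · intro p' _ hp'
      rw [Pi.single_apply, if_neg, mul_zero]
      intro h4
      exact hp' (Subtype.ext h4.symm)
    · intro h4
      exact absurd (Finset.mem_univ _) h4

theorem deg_sum_mon {L : Type*} [CommRing L] (y : Box q M → L) (j : Fin q) :
    degreeOf j (∑ a : Box q M, monomial (be a) (y a)) ≤ M := by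
  classical
  rw [degreeOf_eq_sup, Finset.sup_le_iff]
  intro m hm
  rw [mem_support_iff, coeff_sum] at hm
  obtain ⟨a, -, ha⟩ := Finset.exists_ne_zero_of_sum_ne_zero hm
  rw [coeff_monomial] at ha
  split_ifs at ha with h1
  · rw [← h1]
    show ((a j : ℕ)) ≤ M
    have := (a j).2
    omega
  · exact absurd rfl ha

theorem coeff_sum_mon {L : Type*} [CommRing L] (y : Box q M → L) (a : Box q M) :
    coeff (be a) (∑ a : Box q M, monomial (be a) (y a)) = y a := by
  classical
  rw [coeff_sum]
  simp only [coeff_monomial]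
  rw [Finset.sum_eq_single a]
  · rw [if_pos rfl]
  · intro b _ hb
    rw [if_neg]
    intro h
    exact hb (be_inj h)
  · intro h
    exact absurd (Finset.mem_univ _) h

/-- G6: coprime polynomials. -/
theorem Tm_exc {L : Type*} [Field L] (g : Fin 2 → MvPolynomial (Fin q) L)
    (_hg : ∀ i j, degreeOf j (g i) ≤ d j) (hcop : IsRelPrime (g 0) (g 1))
    (hc : ∀ T, coeff (fs (corner d T)) (g 1) ≠ 0) (y : Fin 2 × Box q M → L)
    (hy : ∑ p, C (y p) * (g p.1 * monomial (fs fun j => (p.2 j : ℕ)) 1) = 0)
    (z : Fin 2 × Box q M → L) (hz : ∀ b : Rw q M d, ∑ p, Tm M d g b p * z p = 0) :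
    ∑ p, y p * z p = 0 := by
  classical
  set Y : Fin 2 → MvPolynomial (Fin q) L :=
    fun i => ∑ a : Box q M, monomial (be a) (y (i, a)) with hY
  have h1 : Y 0 * g 0 + Y 1 * g 1 = 0 := by
    rw [← hy, Fintype.sum_prod_type, Fin.sum_univ_two, hY]
    simp only [Finset.sum_mul]
    congr 1
    · refine Finset.sum_congr rfl fun a _ => ?_
      rw [show (monomial (be a) (y (0, a)) : MvPolynomial (Fin q) L) =
        C (y (0, a)) * monomial (be a) 1 by rw [C_mul_monomial, mul_one]]
      ring
    · refine Finset.sum_congr rfl fun a _ => ?_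
      rw [show (monomial (be a) (y (1, a)) : MvPolynomial (Fin q) L) =
        C (y (1, a)) * monomial (be a) 1 by rw [C_mul_monomial, mul_one]]
      ring
  have hg1 : g 1 ≠ 0 := by
    intro h
    exact hc ∅ (by rw [h, coeff_zero])
  have h2 : g 1 ∣ Y 0 := by
    refine IsRelPrime.dvd_of_dvd_mul_right (z := g 0) hcop.symm ?_
    refine ⟨- Y 1, ?_⟩
    linear_combination h1
  obtain ⟨h, hh⟩ := h2
  have h3 : Y 1 = h * (- g 0) := by
    apply mul_right_cancel₀ hg1
    rw [hh] at h1
    linear_combination h1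
  have hd : ∀ j, d j ≤ degreeOf j (g 1) := by
    intro j
    have h4 := le_deg (hc Finset.univ) j
    have h5 : (fs (corner d Finset.univ)) j = d j := by
      rw [fs_apply]
      simp [corner]
    omega
  have hhd : h ≠ 0 → ∀ j, degreeOf j h + d j ≤ M := by
    intro hne j
    have h4 : degreeOf j (Y 0) ≤ M := deg_sum_mon _ j
    rw [hh, degreeOf_mul_eq hg1 hne] at h4
    have := hd j
    omega
  -- `h` is a combination of the monomials with exponents in `Rw`
  have h4 : h = ∑ b : Rw q M d, monomial (be b.1) (coeff (be b.1) h) := by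
    ext m
    rw [coeff_sum]
    simp only [coeff_monomial]
    by_cases h5 : coeff m h = 0
    · rw [h5]
      symm
      refine Finset.sum_eq_zero fun a _ => ?_
      split_ifs with h1
      · rw [h1, h5]
      · rfl
    · have hne : h ≠ 0 := by
        rintro rfl
        exact h5 (coeff_zero _)
      have h6 : ∀ j, m j + d j ≤ M := fun j => by
        have e1 := hhd hne j
        have e2 := le_deg h5 j
        omega
      obtain ⟨a, ha⟩ := exists_be (M := M) (m := m) fun j => by have := h6 j; omega
      have h7 : ∀ j, (a j : ℕ) + d j ≤ M := fun j => by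
        have e1 := h6 j
        have e2 : (be a) j = m j := by rw [ha]
        rw [fs_apply] at e2
        omega
      rw [Finset.sum_eq_single (⟨a, h7⟩ : Rw q M d)]
      · rw [if_pos ha, ha]
      · intro b _ hb
        rw [if_neg]
        intro h1
        exact hb (Subtype.ext (be_inj (h1.trans ha.symm)))
      · intro h1
        exact absurd (Finset.mem_univ _) h1
  have h5 : ∀ p, y p = ∑ b : Rw q M d, coeff (be b.1) h * Tm M d g b p := by
    have h6 : ∀ (G : MvPolynomial (Fin q) L) (a : Box q M), coeff (be a) (h * G) =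
        ∑ b : Rw q M d, coeff (be b.1) h * coeff (be a) (monomial (be b.1) 1 * G) := by
      intro G a
      conv_lhs => rw [h4]
      rw [Finset.sum_mul, coeff_sum]
      refine Finset.sum_congr rfl fun b _ => ?_
      rw [show (monomial (be b.1) (coeff (be b.1) h) : MvPolynomial (Fin q) L) =
        C (coeff (be b.1) h) * monomial (be b.1) 1 by rw [C_mul_monomial, mul_one],
        mul_assoc, coeff_C_mul]
    rintro ⟨i, a⟩
    have h7 : y (i, a) = coeff (be a) (Y i) := (coeff_sum_mon (fun a => y (i, a)) a).symm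
    rw [h7]
    fin_cases i
    · show coeff (be a) (Y 0) = _
      rw [hh, mul_comm, h6]
      rfl
    · show coeff (be a) (Y 1) = _
      rw [h3, h6]
      refine Finset.sum_congr rfl fun b _ => ?_
      rfl
  calc ∑ p, y p * z p = ∑ p, ∑ b : Rw q M d, coeff (be b.1) h * (Tm M d g b p * z p) := by
        refine Finset.sum_congr rfl fun p _ => ?_
        rw [h5 p, Finset.sum_mul]
        exact Finset.sum_congr rfl fun b _ => by ring
    _ = ∑ b : Rw q M d, coeff (be b.1) h * ∑ p, Tm M d g b p * z p := by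
        rw [Finset.sum_comm]
        exact Finset.sum_congr rfl fun b _ => by rw [Finset.mul_sum]
    _ = 0 := by simp [hz]

end

end Pool.Agent.Lib.MP_17a322_nt.SV2
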