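import Pool.Agent.Lib.MP_17a322_nt.SV2.GL4

/-!
The Gauss lemma: the statements of the interface.
-/

universe u

namespace Pool.Agent.Lib.MP_17a322_nt.SV2

open MvPolynomial Height

section

variable {q : ℕ} (M : ℕ) (d : Fin q → ℕ)

/-- GL1. -/
theorem GL_fin {L : Type*} [Field L] (v : AbsoluteValue L ℝ) (hv : IsNonarchimedean v)
    (g : Fin 2 → MvPolynomial (Fin q) L) (hg : ∀ i j, degreeOf j (g i) ≤ d j) :
    (⨆ p : Fin 2 × Cf q d, v (coeff (fs fun j => (p.2 j : ℕ)) (g p.1))) ^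
        Fintype.card (Rw q M d) ≤
      ⨆ e : Rw q M d ↪ Fin 2 × Box q M, v (((Tm M d g).submatrix id e).det) := by
  obtain ⟨e, he⟩ := gauss_nonarch M d v hv g hg
  exact he.trans (Finite.le_ciSup
    (fun e : Rw q M d ↪ Fin 2 × Box q M => v (((Tm M d g).submatrix id e).det)) e)

/-- GL2. -/
theorem GL_cpx : ∃ κ : ℝ, 0 < κ ∧ ∀ g : Fin 2 → MvPolynomial (Fin q) ℂ,
    (∀ i j, degreeOf j (g i) ≤ d j) →
    κ * (⨆ p : Fin 2 × Cf q d, ‖coeff (fs fun j => (p.2 j : ℕ)) (g p.1)‖) ^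
        Fintype.card (Rw q M d) ≤
      ⨆ e : Rw q M d ↪ Fin 2 × Box q M, ‖((Tm M d g).submatrix id e).det‖ :=
  gauss_complex q M d

/-- GL4. -/
theorem GL_height (K : Type u) [Field K] [NumberField K] : ∃ C : ℝ,
    ∀ g : Fin 2 → MvPolynomial (Fin q) K, (∀ i j, degreeOf j (g i) ≤ d j) → g ≠ 0 →
    (Fintype.card (Rw q M d) : ℝ) *
        logHeight (fun p : Fin 2 × Cf q d => coeff (fs fun j => (p.2 j : ℕ)) (g p.1)) - C ≤
      logHeight fun e : Rw q M d ↪ Fin 2 × Box q M => ((Tm M d g).submatrix id e).det := by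
  obtain ⟨C, hC⟩ := gauss_height K q M d
  refine ⟨C, fun g hg h0 => ?_⟩
  have h1 : ∃ p : Fin 2 × Cf q d, coeff (fc p.2) (g p.1) ≠ 0 := by
    obtain ⟨i, hi⟩ := Function.ne_iff.1 h0
    obtain ⟨m, hm⟩ := MvPolynomial.ne_zero_iff.1 hi
    obtain ⟨c, hc⟩ := GL_exists_fc (hg i) hm
    exact ⟨(i, c), by rw [hc]; exact hm⟩
  have h2 := hC g hg h1
  rw [sub_le_iff_le_add]
  exact h2

end

end Pool.Agent.Lib.MP_17a322_nt.SV2
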