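import Pool.Agent.Lib.MP_17a322_nt.SV2.Defs

/-!
The Gauss lemma for the rows of the multiplication by two polynomials, nonarchimedean absolute values.
-/

namespace Pool.Agent.Lib.MP_17a322_nt.SV2

open MvPolynomial

/-- A box exponent as an exponent. -/
noncomputable def fb {q M : ℕ} (a : Box q M) : Fin q →₀ ℕ :=
  Finsupp.equivFunOnFinite.symm fun j => (a j : ℕ)

/-- A box exponent as an exponent. -/
noncomputable def fc {q : ℕ} {d : Fin q → ℕ} (c : Cf q d) : Fin q →₀ ℕ :=
  Finsupp.equivFunOnFinite.symm fun j => (c j : ℕ)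

/-- The matrix of `h ↦ (g 1 * h, - g 0 * h)`, the row `b` is `h = u ^ b`. -/
noncomputable def TT {q : ℕ} (M : ℕ) (d : Fin q → ℕ) {R : Type*} [CommRing R]
    (g : Fin 2 → MvPolynomial (Fin q) R) : Matrix (Rw q M d) (Fin 2 × Box q M) R :=
  fun b p => coeff (fb p.2) (monomial (fb b.1) 1 * ![g 1, -g 0] p.1)

@[simp] theorem fb_apply {q M : ℕ} (a : Box q M) (j : Fin q) : fb a j = a j := rfl

@[simp] theorem fc_apply {q : ℕ} {d : Fin q → ℕ} (c : Cf q d) (j : Fin q) : fc c j = c j := rfl

theorem fb_inj {q M : ℕ} {a b : Box q M} (h : fb a = fb b) : a = b := by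
  funext j
  exact Fin.ext (DFunLike.congr_fun h j)

theorem fc_inj {q : ℕ} {d : Fin q → ℕ} {a b : Cf q d} (h : fc a = fc b) : a = b := by
  funext j
  exact Fin.ext (DFunLike.congr_fun h j)

/-! ### Determinants -/

/-- A permutation which is not the identity decreases some element. -/
theorem GL_perm_lt {n β : Type*} [Fintype n] [DecidableEq n] [LinearOrder β] (φ : n → β)
    (hφ : Function.Injective φ) (σ : Equiv.Perm n) (hσ : σ ≠ 1) : ∃ i, φ (σ i) < φ i := by
  classical
  have hne : (Finset.univ.filter fun i => σ i ≠ i).Nonempty := by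
    by_contra h
    apply hσ
    ext i
    rw [Finset.not_nonempty_iff_eq_empty] at h
    by_contra hi
    have : i ∈ (Finset.univ.filter fun i => σ i ≠ i) := Finset.mem_filter.2 ⟨Finset.mem_univ _, hi⟩
    rw [h] at this
    exact absurd this (Finset.notMem_empty _)
  obtain ⟨i, hi, hmin⟩ := Finset.exists_min_image _ φ hne
  have hi' : σ i ≠ i := (Finset.mem_filter.1 hi).2
  set j := σ⁻¹ i with hj
  have hσj : σ j = i := by rw [hj]; simp
  have hji : j ≠ i := fun h => hi' (by rw [← h]; rw [hσj]; exact h.symm)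
  refine ⟨j, ?_⟩
  rw [hσj]
  refine lt_of_le_of_ne (hmin j (Finset.mem_filter.2 ⟨Finset.mem_univ _, ?_⟩)) ?_
  · rw [hσj]; exact hji.symm
  · exact fun h => hji (hφ h).symm

/-- The absolute value of the determinant of a matrix whose diagonal entries have the maximal
absolute value, and whose entries above the diagonal have a smaller absolute value. -/
theorem det_val {L : Type*} [Field L] (v : AbsoluteValue L ℝ) (hv : IsNonarchimedean v)
    {n β : Type*} [Fintype n] [DecidableEq n] [LinearOrder β] (φ : n → β)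
    (hφ : Function.Injective φ) (A : Matrix n n L) {m : ℝ} (hm : 0 < m) (h1 : ∀ i, v (A i i) = m)
    (h2 : ∀ i j, v (A i j) ≤ m) (h3 : ∀ i j, φ i < φ j → v (A i j) < m) :
    v A.det = m ^ Fintype.card n := by
  classical
  rw [Matrix.det_apply, ← Finset.add_sum_erase _ _ (Finset.mem_univ (1 : Equiv.Perm n))]
  have hone : v (Equiv.Perm.sign (1 : Equiv.Perm n) • ∏ i, A ((1 : Equiv.Perm n) i) i) =
      m ^ Fintype.card n := by
    rw [Equiv.Perm.sign_one, one_smul, map_prod]
    simp only [Equiv.Perm.coe_one, id_eq, h1, Finset.prod_const, Finset.card_univ]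
  have hterm : ∀ σ : Equiv.Perm n, σ ≠ 1 →
      v (Equiv.Perm.sign σ • ∏ i, A (σ i) i) < m ^ Fintype.card n := by
    intro σ hσ
    obtain ⟨i, hi⟩ := GL_perm_lt φ hφ σ hσ
    have hs : v (Equiv.Perm.sign σ • ∏ i, A (σ i) i) = ∏ i, v (A (σ i) i) := by
      rw [← map_prod]
      rcases Int.units_eq_one_or (Equiv.Perm.sign σ) with h | h
      · rw [h, one_smul]
      · rw [h, Units.neg_smul, one_smul, map_neg_eq_map]
    rw [hs, ← Finset.mul_prod_erase _ _ (Finset.mem_univ i)]
    have hle : ∏ j ∈ Finset.univ.erase i, v (A (σ j) j) ≤ m ^ (Fintype.card n - 1) := by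
      calc ∏ j ∈ Finset.univ.erase i, v (A (σ j) j) ≤ ∏ j ∈ Finset.univ.erase i, m :=
            Finset.prod_le_prod (fun j _ => v.nonneg _) fun j _ => h2 _ _
        _ = m ^ (Fintype.card n - 1) := by
            rw [Finset.prod_const, Finset.card_erase_of_mem (Finset.mem_univ _),
              Finset.card_univ]
    have hc : 0 < Fintype.card n := Fintype.card_pos_iff.2 ⟨i⟩
    calc v (A (σ i) i) * ∏ j ∈ Finset.univ.erase i, v (A (σ j) j) ≤
          v (A (σ i) i) * m ^ (Fintype.card n - 1) := mul_le_mul_of_nonneg_left hle (v.nonneg _)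
      _ < m * m ^ (Fintype.card n - 1) :=
          mul_lt_mul_of_pos_right (h3 _ _ hi) (pow_pos hm _)
      _ = m ^ Fintype.card n := by
          rw [← pow_succ', Nat.sub_add_cancel hc]
  have hrest : v (∑ σ ∈ Finset.univ.erase (1 : Equiv.Perm n),
      Equiv.Perm.sign σ • ∏ i, A (σ i) i) < m ^ Fintype.card n := by
    rcases (Finset.univ.erase (1 : Equiv.Perm n)).eq_empty_or_nonempty with he | hne
    · rw [he, Finset.sum_empty, map_zero]
      exact pow_pos hm _
    · obtain ⟨σ, hσ, hle⟩ := IsNonarchimedean.finset_image_add_of_nonempty hv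
        (fun σ : Equiv.Perm n => Equiv.Perm.sign σ • ∏ i, A (σ i) i) hne
      exact lt_of_le_of_lt hle (hterm σ (Finset.ne_of_mem_erase hσ))
  rw [hv.add_eq_left_of_lt (by rw [hone]; exact hrest), hone]

end Pool.Agent.Lib.MP_17a322_nt.SV2
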