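import Pool.Agent.Lib.MP_17a322_nt.SV2.GL1

/-!
The Gauss lemma for the rows of the multiplication by two polynomials, nonarchimedean absolute values.
-/

namespace Pool.Agent.Lib.MP_17a322_nt.SV2

open MvPolynomial

section

variable {q : ℕ} {d : Fin q → ℕ} {L : Type*} [Field L]

/-- A nonzero coefficient has its exponent in the box. -/
theorem GL_exists_fc {g : MvPolynomial (Fin q) L} (hg : ∀ j, degreeOf j g ≤ d j)
    {c : Fin q →₀ ℕ} (hc : coeff c g ≠ 0) : ∃ c' : Cf q d, fc c' = c := by
  have h : ∀ j, c j < d j + 1 := fun j =>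
    Nat.lt_succ_of_le ((monomial_le_degreeOf j (mem_support_iff.2 hc)).trans (hg j))
  refine ⟨fun j => ⟨c j, h j⟩, ?_⟩
  ext j
  rfl

theorem GL_coeff_le_sup (v : AbsoluteValue L ℝ) {g : Fin 2 → MvPolynomial (Fin q) L}
    (hg : ∀ i j, degreeOf j (g i) ≤ d j) (i : Fin 2) (c : Fin q →₀ ℕ) :
    v (coeff c (g i)) ≤ ⨆ p : Fin 2 × Cf q d, v (coeff (fc p.2) (g p.1)) := by
  have hb : BddAbove (Set.range fun p : Fin 2 × Cf q d => v (coeff (fc p.2) (g p.1))) :=
    (Set.finite_range _).bddAbove
  by_cases hc : coeff c (g i) = 0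
  · rw [hc, map_zero]
    exact (v.nonneg _).trans (le_ciSup hb (0, fun _ => 0))
  · obtain ⟨c', rfl⟩ := GL_exists_fc (hg i) hc
    exact le_ciSup hb (i, c')

theorem GL_sup_nonneg (v : AbsoluteValue L ℝ) (g : Fin 2 → MvPolynomial (Fin q) L) :
    0 ≤ ⨆ p : Fin 2 × Cf q d, v (coeff (fc p.2) (g p.1)) := by
  have hb : BddAbove (Set.range fun p : Fin 2 × Cf q d => v (coeff (fc p.2) (g p.1))) :=
    (Set.finite_range _).bddAbove
  exact (v.nonneg _).trans (le_ciSup hb (0, fun _ => 0))

/-- The column `(i, b + c)`. -/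
def colE (M : ℕ) (i : Fin 2) (c : Cf q d) : Rw q M d ↪ Fin 2 × Box q M where
  toFun b := (i, fun j => ⟨(b.1 j : ℕ) + c j, by
    have h1 := b.2 j
    have h2 := (c j).2
    omega⟩)
  inj' := by
    intro b b' h
    have h1 := congrArg Prod.snd h
    apply Subtype.ext
    funext j
    have h2 := congrFun h1 j
    have h3 := congrArg Fin.val h2
    simp only at h3
    exact Fin.ext (by omega)

theorem fb_colE (M : ℕ) (i : Fin 2) (c : Cf q d) (b : Rw q M d) :
    fb (colE M i c b).2 = fb b.1 + fc c := by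
  ext j
  rfl

theorem colE_fst (M : ℕ) (i : Fin 2) (c : Cf q d) (b : Rw q M d) : (colE M i c b).1 = i := rfl

theorem GL_entry (M : ℕ) {g : Fin 2 → MvPolynomial (Fin q) L} (v : AbsoluteValue L ℝ) (i : Fin 2)
    (b : Rw q M d) (a : Box q M) :
    v (TT M d g b (i, a)) =
      if fb b.1 ≤ fb a then v (coeff (fb a - fb b.1) (g (1 - i))) else 0 := by
  have h : v (coeff (fb a - fb b.1) (![g 1, -g 0] i)) =
      v (coeff (fb a - fb b.1) (g (1 - i))) := by
    fin_cases i
    · rfl
    · show v (coeff _ (-g 0)) = v (coeff _ (g (1 - 1)))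
      rw [coeff_neg, map_neg_eq_map]
      rfl
  simp only [TT, coeff_monomial_mul', one_mul]
  split_ifs
  · exact h
  · exact map_zero v

/-- Some maximal minor has the absolute value of the Gauss norm to the power of the number of
rows. -/
theorem gauss_nonarch (M : ℕ) (d : Fin q → ℕ) (v : AbsoluteValue L ℝ) (hv : IsNonarchimedean v)
    (g : Fin 2 → MvPolynomial (Fin q) L) (hg : ∀ i j, degreeOf j (g i) ≤ d j) :
    ∃ e : Rw q M d ↪ Fin 2 × Box q M,
      (⨆ p : Fin 2 × Cf q d, v (coeff (fc p.2) (g p.1))) ^ Fintype.card (Rw q M d) ≤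
        v ((TT M d g).submatrix id e).det := by
  classical
  set m : ℝ := ⨆ p : Fin 2 × Cf q d, v (coeff (fc p.2) (g p.1)) with hm
  have hm0 : 0 ≤ m := GL_sup_nonneg v g
  rcases hm0.eq_or_lt with hz | hpos
  · refine ⟨colE M 0 fun _ => 0, ?_⟩
    rw [← hz]
    rcases (Fintype.card (Rw q M d)).eq_zero_or_pos with hc | hc
    · have : IsEmpty (Rw q M d) := Fintype.card_eq_zero_iff.1 hc
      rw [hc, pow_zero, Matrix.det_isEmpty, map_one]
    · rw [zero_pow hc.ne']
      exact v.nonneg _
  · set ord : MonomialOrder (Fin q) := MonomialOrder.lex with hord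
    set S : Finset (Fin 2 × Cf q d) := Finset.univ.filter fun p => v (coeff (fc p.2) (g p.1)) = m
      with hS
    have hSne : S.Nonempty := by
      obtain ⟨p, hp⟩ := exists_eq_ciSup_of_finite
        (f := fun p : Fin 2 × Cf q d => v (coeff (fc p.2) (g p.1)))
      exact ⟨p, Finset.mem_filter.2 ⟨Finset.mem_univ _, hp⟩⟩
    obtain ⟨p, hpS, hpmax⟩ := Finset.exists_max_image S (fun p => ord.toSyn (fc p.2)) hSne
    obtain ⟨i₀, c₀⟩ := p
    have hpm : v (coeff (fc c₀) (g i₀)) = m := (Finset.mem_filter.1 hpS).2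
    have hlt : ∀ c : Fin q →₀ ℕ, ord.toSyn (fc c₀) < ord.toSyn c → v (coeff c (g i₀)) < m := by
      intro c hc
      refine lt_of_le_of_ne (GL_coeff_le_sup v hg i₀ c) ?_
      intro heq
      have hne : coeff c (g i₀) ≠ 0 := by
        intro h0
        rw [h0, map_zero] at heq
        exact hpos.ne heq
      obtain ⟨c', rfl⟩ := GL_exists_fc (hg i₀) hne
      have := hpmax (i₀, c') (Finset.mem_filter.2 ⟨Finset.mem_univ _, heq⟩)
      exact absurd hc (not_lt.2 this)
    have hsub : ∀ i : Fin 2, 1 - (1 - i) = i := by decide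
    refine ⟨colE M (1 - i₀) c₀, le_of_eq ?_⟩
    symm
    refine det_val v hv (fun b : Rw q M d => ord.toSyn (fb b.1)) ?_ _ hpos ?_ ?_ ?_
    · intro b b' h
      exact Subtype.ext (fb_inj (ord.toSyn.injective h))
    · intro b
      rw [Matrix.submatrix_apply, id_eq]
      have h := GL_entry M (g := g) v (1 - i₀) b (colE M (1 - i₀) c₀ b).2
      rw [fb_colE, hsub, if_pos le_self_add, add_tsub_cancel_left, hpm] at h
      exact h
    · intro b b'
      rw [Matrix.submatrix_apply, id_eq]
      have h := GL_entry M (g := g) v (1 - i₀) b (colE M (1 - i₀) c₀ b').2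
      rw [fb_colE, hsub] at h
      refine le_trans (le_of_eq h) ?_
      split_ifs
      · exact GL_coeff_le_sup v hg i₀ _
      · exact hm0
    · intro b b' hbb
      rw [Matrix.submatrix_apply, id_eq]
      have h := GL_entry M (g := g) v (1 - i₀) b (colE M (1 - i₀) c₀ b').2
      rw [fb_colE, hsub] at h
      refine lt_of_le_of_lt (le_of_eq h) ?_
      split_ifs with hle
      · apply hlt
        have h2 : fb b.1 + (fb b'.1 + fc c₀ - fb b.1) = fb b'.1 + fc c₀ :=
          add_tsub_cancel_of_le hle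
        have h3 := congrArg ord.toSyn h2
        rw [map_add, map_add] at h3
        by_contra hcon
        rw [not_lt] at hcon
        have h4 : ord.toSyn (fb b.1) + ord.toSyn (fb b'.1 + fc c₀ - fb b.1) <
            ord.toSyn (fb b'.1) + ord.toSyn (fc c₀) := add_lt_add_of_lt_of_le hbb hcon
        exact h4.ne h3
      · exact hpos

end

end Pool.Agent.Lib.MP_17a322_nt.SV2
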