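import Pool.Agent.Lib.MP_17a322_nt.SV2.GL2

/-!
The Gauss lemma for the rows of the multiplication by two polynomials, archimedean absolute values.
-/

namespace Pool.Agent.Lib.MP_17a322_nt.SV2

open MvPolynomial

section

variable {q : ℕ} {d : Fin q → ℕ}

/-- The trivial absolute value is nonarchimedean. -/
theorem trivial_nonarch {L : Type*} [Field L] [DecidablePred fun x : L => x = 0] :
    IsNonarchimedean (AbsoluteValue.trivial : AbsoluteValue L ℝ) := by
  intro x y
  by_cases h : x + y = 0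
  · rw [h, map_zero]
    exact le_max_of_le_left (AbsoluteValue.nonneg _ _)
  · rw [AbsoluteValue.trivial_apply h]
    by_cases hx : x = 0
    · have hy : y ≠ 0 := by
        rintro rfl
        exact h (by rw [hx, add_zero])
      rw [AbsoluteValue.trivial_apply hy]
      exact le_max_right _ _
    · rw [AbsoluteValue.trivial_apply hx]
      exact le_max_left _ _

/-- The rows are linearly independent if one of the polynomials is not zero. -/
theorem exists_minor {L : Type*} [Field L] (M : ℕ) (g : Fin 2 → MvPolynomial (Fin q) L)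
    (hg : ∀ i j, degreeOf j (g i) ≤ d j) (h0 : ∃ p : Fin 2 × Cf q d, coeff (fc p.2) (g p.1) ≠ 0) :
    ∃ e : Rw q M d ↪ Fin 2 × Box q M, ((TT M d g).submatrix id e).det ≠ 0 := by
  classical
  obtain ⟨e, he⟩ := gauss_nonarch M d (AbsoluteValue.trivial : AbsoluteValue L ℝ)
    trivial_nonarch g hg
  refine ⟨e, fun h => ?_⟩
  rw [h, map_zero] at he
  obtain ⟨p, hp⟩ := h0
  have hb : BddAbove (Set.range fun p : Fin 2 × Cf q d =>
    (AbsoluteValue.trivial : AbsoluteValue L ℝ) (coeff (fc p.2) (g p.1))) :=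
    (Set.finite_range _).bddAbove
  have h1 := le_ciSup hb p
  simp only [AbsoluteValue.trivial_apply hp] at h1
  have h2 : (0 : ℝ) < (⨆ p : Fin 2 × Cf q d,
    (AbsoluteValue.trivial : AbsoluteValue L ℝ) (coeff (fc p.2) (g p.1))) ^
      Fintype.card (Rw q M d) := pow_pos (lt_of_lt_of_le zero_lt_one h1) _
  exact absurd he (not_le.2 h2)

/-- The polynomials with given coefficients. -/
noncomputable def GLpl {R : Type*} [CommRing R] (w : Fin 2 × Cf q d → R) (i : Fin 2) :
    MvPolynomial (Fin q) R :=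
  ∑ c : Cf q d, monomial (fc c) (w (i, c))

theorem coeff_GLpl {R : Type*} [CommRing R] (w : Fin 2 × Cf q d → R) (i : Fin 2) (c : Cf q d) :
    coeff (fc c) (GLpl w i) = w (i, c) := by
  classical
  simp only [GLpl, coeff_sum, coeff_monomial]
  rw [Finset.sum_eq_single c]
  · rw [if_pos rfl]
  · intro c' _ hc'
    rw [if_neg]
    exact fun h => hc' (fc_inj h)
  · intro h
    exact absurd (Finset.mem_univ _) h

theorem degreeOf_GLpl {R : Type*} [CommRing R] (w : Fin 2 × Cf q d → R) (i : Fin 2) (j : Fin q) :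
    degreeOf j (GLpl w i) ≤ d j := by
  classical
  rw [degreeOf_le_iff]
  intro m hm
  have hm' : m ∈ (GLpl w i).support := hm
  have h1 := MvPolynomial.support_sum hm'
  rw [Finset.mem_biUnion] at h1
  obtain ⟨c, _, hc⟩ := h1
  have h2 := MvPolynomial.support_monomial_subset hc
  rw [Finset.mem_singleton] at h2
  rw [h2]
  exact Nat.le_of_lt_succ (c j).2

theorem GLpl_coeff {R : Type*} [CommRing R] {g : Fin 2 → MvPolynomial (Fin q) R}
    (hg : ∀ i j, degreeOf j (g i) ≤ d j) : GLpl (fun p : Fin 2 × Cf q d => coeff (fc p.2) (g p.1)) = g := by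
  classical
  funext i
  ext m
  by_cases hm : ∃ c : Cf q d, fc c = m
  · obtain ⟨c, rfl⟩ := hm
    rw [coeff_GLpl]
  · have h1 : ∀ f : MvPolynomial (Fin q) R, (∀ j, degreeOf j f ≤ d j) → coeff m f = 0 := by
      intro f hf
      by_contra hne
      apply hm
      have h : ∀ j, m j < d j + 1 := fun j =>
        Nat.lt_succ_of_le ((monomial_le_degreeOf j (mem_support_iff.2 hne)).trans (hf j))
      exact ⟨fun j => ⟨m j, h j⟩, by ext j; rfl⟩
    rw [h1 _ (hg i), h1 _ (degreeOf_GLpl _ i)]

theorem TT_continuous (M : ℕ) (b : Rw q M d) (p : Fin 2 × Box q M) :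
    Continuous fun w : Fin 2 × Cf q d → ℂ => TT M d (GLpl w) b p := by
  classical
  obtain ⟨i, a⟩ := p
  have hc : ∀ (i : Fin 2) (m : Fin q →₀ ℕ),
      Continuous fun w : Fin 2 × Cf q d → ℂ => coeff m (GLpl w i) := by
    intro i m
    simp only [GLpl, coeff_sum, coeff_monomial]
    refine continuous_finsetSum _ fun c _ => ?_
    split_ifs
    · exact continuous_apply _
    · exact continuous_const
  simp only [TT, coeff_monomial_mul', one_mul]
  split_ifs
  · fin_cases i
    · exact hc 1 _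
    · show Continuous fun w : Fin 2 × Cf q d → ℂ => coeff _ (-GLpl w 0)
      simp only [coeff_neg]
      exact (hc 0 _).neg
  · exact continuous_const

theorem GLpl_smul {R : Type*} [CommRing R] (s : R) (w : Fin 2 × Cf q d → R) :
    GLpl (s • w) = s • GLpl w := by
  funext i
  simp only [GLpl, Pi.smul_apply, smul_eq_mul, Finset.smul_sum]
  refine Finset.sum_congr rfl fun c _ => ?_
  rw [smul_monomial, smul_eq_mul]

theorem TT_smul {R : Type*} [CommRing R] (M : ℕ) (s : R) (g : Fin 2 → MvPolynomial (Fin q) R) :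
    TT M d (s • g) = s • TT M d g := by
  funext b p
  obtain ⟨i, a⟩ := p
  simp only [TT, coeff_monomial_mul', one_mul, Matrix.smul_apply, smul_eq_mul]
  split_ifs
  · fin_cases i
    · show coeff _ (s • g 1) = s * coeff _ (g 1)
      rw [coeff_smul, smul_eq_mul]
    · show coeff _ (-(s • g 0)) = s * coeff _ (-g 0)
      rw [coeff_neg, coeff_neg, coeff_smul, smul_eq_mul, mul_neg]
  · rw [mul_zero]

theorem TT_map {R S : Type*} [CommRing R] [CommRing S] (φ : R →+* S) (M : ℕ)
    (g : Fin 2 → MvPolynomial (Fin q) R) (b : Rw q M d) (p : Fin 2 × Box q M) :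
    TT M d (fun i => MvPolynomial.map φ (g i)) b p = φ (TT M d g b p) := by
  obtain ⟨i, a⟩ := p
  simp only [TT, coeff_monomial_mul', one_mul]
  split_ifs
  · fin_cases i
    · show coeff _ (MvPolynomial.map φ (g 1)) = φ (coeff _ (g 1))
      rw [coeff_map]
    · show coeff _ (-(MvPolynomial.map φ (g 0))) = φ (coeff _ (-g 0))
      rw [coeff_neg, coeff_neg, coeff_map, map_neg]
  · rw [map_zero]

/-- The Gauss lemma over the complex numbers. -/
theorem gauss_complex (q M : ℕ) (d : Fin q → ℕ) :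
    ∃ κ : ℝ, 0 < κ ∧ ∀ g : Fin 2 → MvPolynomial (Fin q) ℂ, (∀ i j, degreeOf j (g i) ≤ d j) →
      κ * (⨆ p : Fin 2 × Cf q d, ‖coeff (fc p.2) (g p.1)‖) ^ Fintype.card (Rw q M d) ≤
        ⨆ e : Rw q M d ↪ Fin 2 × Box q M, ‖((TT M d g).submatrix id e).det‖ := by
  classical
  set E := Rw q M d ↪ Fin 2 × Box q M with hE
  have hEne : Nonempty E := ⟨colE M 0 fun _ => 0⟩
  set r := Fintype.card (Rw q M d) with hr
  set Φ : (Fin 2 × Cf q d → ℂ) → ℝ := fun w => ∑ e : E, ‖((TT M d (GLpl w)).submatrix id e).det‖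
    with hΦ
  have hcont : Continuous Φ := by
    refine continuous_finsetSum _ fun e _ => ?_
    refine Continuous.norm ?_
    refine Continuous.matrix_det ?_
    refine continuous_matrix fun b b' => ?_
    exact TT_continuous M b (e b')
  have hcomp : IsCompact (Metric.sphere (0 : Fin 2 × Cf q d → ℂ) 1) := isCompact_sphere _ _
  have hne : (Metric.sphere (0 : Fin 2 × Cf q d → ℂ) 1).Nonempty := by
    refine ⟨fun _ => 1, ?_⟩
    rw [mem_sphere_zero_iff_norm]
    rw [pi_norm_const]
    exact norm_one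
  obtain ⟨w₀, hw₀, hmin⟩ := hcomp.exists_isMinOn hne hcont.continuousOn
  have hpos : 0 < Φ w₀ := by
    have hw0 : w₀ ≠ 0 := by
      rintro rfl
      rw [mem_sphere_zero_iff_norm, norm_zero] at hw₀
      exact zero_ne_one hw₀
    obtain ⟨p, hp⟩ := Function.ne_iff.1 hw0
    obtain ⟨e, he⟩ := exists_minor M (GLpl w₀) (degreeOf_GLpl w₀) ⟨p, by rw [coeff_GLpl]; exact hp⟩
    exact Finset.sum_pos' (fun e _ => norm_nonneg _) ⟨e, Finset.mem_univ _, norm_pos_iff.2 he⟩
  have hcard : (0 : ℝ) < Fintype.card E := by exact_mod_cast Fintype.card_pos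
  refine ⟨min (Φ w₀ / Fintype.card E) 1, lt_min (div_pos hpos hcard) zero_lt_one, ?_⟩
  intro g hg
  set w : Fin 2 × Cf q d → ℂ := fun p => coeff (fc p.2) (g p.1) with hw
  have hgw : GLpl w = g := GLpl_coeff hg
  have hbE : BddAbove (Set.range fun e : E => ‖((TT M d g).submatrix id e).det‖) :=
    (Set.finite_range _).bddAbove
  have hsup0 : 0 ≤ ⨆ e : E, ‖((TT M d g).submatrix id e).det‖ :=
    Real.iSup_nonneg fun e => norm_nonneg _
  have hnorm : (⨆ p : Fin 2 × Cf q d, ‖coeff (fc p.2) (g p.1)‖) = ‖w‖ := by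
    have hb : BddAbove (Set.range fun p : Fin 2 × Cf q d => ‖w p‖) := (Set.finite_range _).bddAbove
    refine le_antisymm (ciSup_le fun p => norm_le_pi_norm w p) ?_
    rw [pi_norm_le_iff_of_nonneg (Real.iSup_nonneg fun p => norm_nonneg _)]
    exact fun p => le_ciSup hb p
  rw [hnorm]
  rcases eq_or_ne w 0 with h0 | h0
  · rw [h0, norm_zero]
    rcases r.eq_zero_or_pos with hc | hc
    · have : IsEmpty (Rw q M d) := Fintype.card_eq_zero_iff.1 hc
      rw [hc, pow_zero, mul_one]
      refine (min_le_right _ _).trans ?_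
      obtain ⟨e⟩ := hEne
      refine le_trans (le_of_eq ?_) (le_ciSup hbE e)
      rw [Matrix.det_isEmpty, norm_one]
    · rw [zero_pow hc.ne', mul_zero]
      exact hsup0
  · have hwn : 0 < ‖w‖ := norm_pos_iff.2 h0
    set w' : Fin 2 × Cf q d → ℂ := ((‖w‖ : ℂ)⁻¹) • w with hw'
    have hw'n : w' ∈ Metric.sphere (0 : Fin 2 × Cf q d → ℂ) 1 := by
      rw [mem_sphere_zero_iff_norm, hw', norm_smul, norm_inv, Complex.norm_real, norm_norm]
      exact inv_mul_cancel₀ hwn.ne'
    have h1 : Φ w₀ ≤ Φ w' := hmin hw'n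
    have hww : w = (‖w‖ : ℂ) • w' := by
      rw [hw', smul_smul, mul_inv_cancel₀, one_smul]
      exact_mod_cast hwn.ne'
    have hdet : ∀ e : E, ‖((TT M d g).submatrix id e).det‖ =
        ‖w‖ ^ r * ‖((TT M d (GLpl w')).submatrix id e).det‖ := by
      intro e
      rw [← hgw]
      conv_lhs => rw [hww]
      rw [GLpl_smul, TT_smul, Matrix.submatrix_smul]
      show ‖((‖w‖ : ℂ) • ((TT M d (GLpl w')).submatrix id e)).det‖ = _
      rw [Matrix.det_smul, norm_mul, norm_pow, Complex.norm_real, norm_norm]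
    have h2 : Φ w' ≤ Fintype.card E * ⨆ e : E, ‖((TT M d (GLpl w')).submatrix id e).det‖ := by
      have hb : BddAbove (Set.range fun e : E => ‖((TT M d (GLpl w')).submatrix id e).det‖) :=
        (Set.finite_range _).bddAbove
      calc Φ w' ≤ ∑ _e : E, ⨆ e : E, ‖((TT M d (GLpl w')).submatrix id e).det‖ :=
            Finset.sum_le_sum fun e _ => le_ciSup hb e
        _ = _ := by rw [Finset.sum_const, Finset.card_univ, nsmul_eq_mul]
    have h3 : (⨆ e : E, ‖((TT M d g).submatrix id e).det‖) =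
        ‖w‖ ^ r * ⨆ e : E, ‖((TT M d (GLpl w')).submatrix id e).det‖ := by
      simp only [hdet]
      rw [Real.mul_iSup_of_nonneg (pow_nonneg hwn.le _)]
    rw [h3, mul_comm]
    refine mul_le_mul_of_nonneg_left ((min_le_left _ _).trans ?_) (pow_nonneg hwn.le _)
    rw [div_le_iff₀ hcard, mul_comm]
    exact h1.trans h2

end

end Pool.Agent.Lib.MP_17a322_nt.SV2
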