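import Pool.Agent.Lib.MP_17a322_nt.SV2.GL3

/-!
The height of the space of the multiples of a pair of polynomials.
-/

universe u

namespace Pool.Agent.Lib.MP_17a322_nt.SV2

open MvPolynomial Height NumberField Function

section

variable {K : Type u} [Field K] [NumberField K]

omit [NumberField K] in
theorem supv_pos {ι : Type*} [Finite ι] (v : AbsoluteValue K ℝ) {x : ι → K} (hx : x ≠ 0) :
    0 < ⨆ i, v (x i) := by
  obtain ⟨i, hi⟩ := Function.ne_iff.mp hx
  exact (v.pos_iff.2 hi).trans_le (Finite.le_ciSup (fun j => v (x j)) i)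

theorem supv_support {ι : Type*} [Finite ι] {x : ι → K} (hx : x ≠ 0) :
    HasFiniteMulSupport fun v : FinitePlace K => ⨆ i, v (x i) := by
  classical
  obtain ⟨i₀, hi₀⟩ := Function.ne_iff.mp hx
  have : Nonempty ι := ⟨i₀⟩
  have hfin : (⋃ i ∈ {i | x i ≠ 0}, mulSupport fun v : FinitePlace K => v (x i)).Finite := by
    apply Set.Finite.biUnion (Set.toFinite _)
    intro i hi
    exact FinitePlace.hasFiniteMulSupport hi
  refine Set.Finite.subset hfin ?_
  intro v hv
  by_contra hcon
  apply hv
  simp only [Set.mem_iUnion, not_exists, mem_mulSupport, ne_eq, not_not] at hcon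
  apply le_antisymm
  · refine ciSup_le fun i => ?_
    by_cases hi : x i = 0
    · rw [hi, map_zero]; exact zero_le_one
    · exact (hcon i hi).le
  · have := hcon i₀ hi₀
    calc (1 : ℝ) = v (x i₀) := this.symm
      _ ≤ _ := Finite.le_ciSup (fun j => v (x j)) i₀

theorem supv_log_support {ι : Type*} [Finite ι] {x : ι → K} (hx : x ≠ 0) :
    HasFiniteSupport fun v : FinitePlace K => Real.log (⨆ i, v (x i)) := by
  refine Set.Finite.subset (supv_support hx) ?_
  intro v hv
  rw [mem_mulSupport]
  intro h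
  apply hv
  simp only
  rw [h, Real.log_one]

/-- The logarithmic height as a sum over the places. -/
theorem logHeight_sum {ι : Type*} [Finite ι] {x : ι → K} (hx : x ≠ 0) :
    logHeight x = ∑ v : InfinitePlace K, (v.mult : ℝ) * Real.log (⨆ i, v (x i)) +
      ∑ᶠ v : FinitePlace K, Real.log (⨆ i, v (x i)) := by
  rw [logHeight_eq_log_mulHeight, NumberField.mulHeight_eq hx, Real.log_mul]
  · congr 1
    · rw [Real.log_prod]
      · refine Finset.sum_congr rfl fun v _ => ?_
        rw [Real.log_pow]
      · intro v _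
        exact (pow_pos (supv_pos v.1 hx) _).ne'
    · exact Real.log_finprod (fun v : FinitePlace K => supv_pos v.1 hx)
  · exact (Finset.prod_pos fun (v : InfinitePlace K) _ => pow_pos (supv_pos v.1 hx) _).ne'
  · exact (finprod_induction (fun y : ℝ => 0 < y) one_pos (fun _ _ => mul_pos)
        fun v : FinitePlace K => supv_pos v.1 hx).ne'

variable {q : ℕ} {d : Fin q → ℕ}

/-- The Gauss lemma at the infinite places. -/
theorem gauss_infinite (K : Type u) [Field K] [NumberField K] (q M : ℕ) (d : Fin q → ℕ) :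
    ∃ κ : ℝ, 0 < κ ∧ ∀ (v : InfinitePlace K) (g : Fin 2 → MvPolynomial (Fin q) K),
      (∀ i j, degreeOf j (g i) ≤ d j) →
      κ * (⨆ p : Fin 2 × Cf q d, v (coeff (fc p.2) (g p.1))) ^ Fintype.card (Rw q M d) ≤
        ⨆ e : Rw q M d ↪ Fin 2 × Box q M, v ((TT M d g).submatrix id e).det := by
  obtain ⟨κ, hκ, h⟩ := gauss_complex q M d
  refine ⟨κ, hκ, fun v g hg => ?_⟩
  have h1 := h (fun i => MvPolynomial.map v.embedding (g i)) (fun i j => by
    refine le_trans ?_ (hg i j)
    rw [degreeOf_le_iff]
    intro m hm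
    exact monomial_le_degreeOf j (support_map_subset _ _ hm))
  have h2 : ∀ e : Rw q M d ↪ Fin 2 × Box q M,
      ‖((TT M d fun i => MvPolynomial.map v.embedding (g i)).submatrix id e).det‖ =
        v ((TT M d g).submatrix id e).det := by
    intro e
    have h3 : ((TT M d fun i => MvPolynomial.map v.embedding (g i)).submatrix id e) =
        v.embedding.mapMatrix ((TT M d g).submatrix id e) := by
      ext b b'
      simp only [Matrix.submatrix_apply, RingHom.mapMatrix_apply, Matrix.map_apply, id_eq]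
      exact TT_map v.embedding M g b (e b')
    rw [h3, ← RingHom.map_det, InfinitePlace.norm_embedding_eq]
  simp only [h2, coeff_map, InfinitePlace.norm_embedding_eq] at h1
  exact h1

/-- The height of the space of the multiples of the pair `g` is at least the number of the rows
times the height of `g`, up to a constant. -/
theorem gauss_height (K : Type u) [Field K] [NumberField K] (q M : ℕ) (d : Fin q → ℕ) :
    ∃ C : ℝ, ∀ g : Fin 2 → MvPolynomial (Fin q) K, (∀ i j, degreeOf j (g i) ≤ d j) →
      (∃ p : Fin 2 × Cf q d, coeff (fc p.2) (g p.1) ≠ 0) →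
      (Fintype.card (Rw q M d) : ℝ) *
          logHeight (fun p : Fin 2 × Cf q d => coeff (fc p.2) (g p.1)) ≤
        logHeight (fun e : Rw q M d ↪ Fin 2 × Box q M => ((TT M d g).submatrix id e).det) + C := by
  classical
  obtain ⟨κ, hκ, hinf⟩ := gauss_infinite K q M d
  refine ⟨-∑ v : InfinitePlace K, (v.mult : ℝ) * Real.log κ, fun g hg h0 => ?_⟩
  obtain ⟨e₀, he₀⟩ := exists_minor M g hg h0
  obtain ⟨p₀, hp₀⟩ := h0
  have hx : (fun p : Fin 2 × Cf q d => coeff (fc p.2) (g p.1)) ≠ 0 :=
    fun h => hp₀ (congrFun h p₀)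
  have hy : (fun e : Rw q M d ↪ Fin 2 × Box q M => ((TT M d g).submatrix id e).det) ≠ 0 :=
    fun h => he₀ (congrFun h e₀)
  rw [logHeight_sum hx, logHeight_sum hy, mul_add, Finset.mul_sum]
  have h1 : ∑ v : InfinitePlace K, (Fintype.card (Rw q M d) : ℝ) *
      ((v.mult : ℝ) * Real.log (⨆ p : Fin 2 × Cf q d, v (coeff (fc p.2) (g p.1)))) ≤
      ∑ v : InfinitePlace K, (v.mult : ℝ) *
        Real.log (⨆ e : Rw q M d ↪ Fin 2 × Box q M, v ((TT M d g).submatrix id e).det) +
      -∑ v : InfinitePlace K, (v.mult : ℝ) * Real.log κ := by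
    rw [← sub_eq_add_neg, ← Finset.sum_sub_distrib]
    refine Finset.sum_le_sum fun v _ => ?_
    have h2 := hinf v g hg
    have h3 : 0 < ⨆ p : Fin 2 × Cf q d, v (coeff (fc p.2) (g p.1)) := supv_pos v.1 hx
    have h4 := Real.log_le_log (mul_pos hκ (pow_pos h3 _)) h2
    rw [Real.log_mul hκ.ne' (pow_pos h3 _).ne', Real.log_pow] at h4
    have h5 : (0 : ℝ) ≤ v.mult := Nat.cast_nonneg _
    nlinarith
  have h2 : (Fintype.card (Rw q M d) : ℝ) *
      ∑ᶠ v : FinitePlace K, Real.log (⨆ p : Fin 2 × Cf q d, v (coeff (fc p.2) (g p.1))) ≤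
      ∑ᶠ v : FinitePlace K,
        Real.log (⨆ e : Rw q M d ↪ Fin 2 × Box q M, v ((TT M d g).submatrix id e).det) := by
    rw [← smul_eq_mul, smul_finsum' _ (supv_log_support hx)]
    refine finsum_le_finsum' ?_ (supv_log_support hy) ?_
    · refine Set.Finite.subset (supv_log_support hx) ?_
      intro v hv
      rw [mem_support] at hv ⊢
      intro h
      apply hv
      rw [h, smul_zero]
    · intro v
      obtain ⟨e, he⟩ := gauss_nonarch M d v.val (FinitePlace.add_le v) g hg
      have h3 : 0 < ⨆ p : Fin 2 × Cf q d, v (coeff (fc p.2) (g p.1)) := supv_pos v.1 hx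
      have h4 := Real.log_le_log (pow_pos h3 _) (he.trans (Finite.le_ciSup
        (fun e : Rw q M d ↪ Fin 2 × Box q M => v ((TT M d g).submatrix id e).det) e))
      rw [Real.log_pow] at h4
      exact h4
  linarith

end

end Pool.Agent.Lib.MP_17a322_nt.SV2
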