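import Pool.Agent.Lib.MP_17a322_nt.SV2.Defs
import Pool.Agent.Lib.MP_17a322_nt.VJ.A4
import Pool.Agent.Lib.MP_17a322_nt.EF.V1

/-!
Vojta's inequality over `A × G_m ^ q`: places and heights.
-/

universe u

namespace Pool.Agent.Lib.MP_17a322_nt.SV2

open MvPolynomial Height
open Pool.Agent.Lib.MP_17a322_nt.VA
open Pool.Agent.Lib.MP_17a322_nt.SL
open Pool.Agent.Lib.MP_17a322_nt.VJ (gs FS FS_log_iSup FS_log_max FS_log_abv gs_log_iSup
  gs_log_max gs_log_abv gs_const_mul)

section

variable {K : Type u} [Field K] [NumberField K] (S : Finset (NumberField.FinitePlace K))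

theorem ps_add (φ ψ : AbsoluteValue K ℝ → ℝ) :
    ps S (fun v => φ v + ψ v) = ps S φ + ps S ψ := by
  unfold ps
  simp only [mul_add, Finset.sum_add_distrib]
  ring

theorem ps_smul (c : ℝ) (φ : AbsoluteValue K ℝ → ℝ) :
    ps S (fun v => c * φ v) = c * ps S φ := by
  unfold ps
  rw [mul_add, Finset.mul_sum, Finset.mul_sum]
  congr 1
  exact Finset.sum_congr rfl fun v _ => by ring

theorem ps_sum {ι : Type*} (T : Finset ι) (φ : ι → AbsoluteValue K ℝ → ℝ) :
    ps S (fun v => ∑ i ∈ T, φ i v) = ∑ i ∈ T, ps S (φ i) := by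
  unfold ps
  rw [Finset.sum_add_distrib]
  congr 1
  · rw [Finset.sum_comm]
    exact Finset.sum_congr rfl fun v _ => Finset.mul_sum _ _ _
  · rw [Finset.sum_comm]

theorem ps_le {φ ψ : AbsoluteValue K ℝ → ℝ}
    (hi : ∀ v : NumberField.InfinitePlace K, φ v.val ≤ ψ v.val)
    (hf : ∀ v ∈ S, φ v.val ≤ ψ v.val) : ps S φ ≤ ps S ψ := by
  unfold ps
  refine add_le_add (Finset.sum_le_sum fun v _ => ?_) (Finset.sum_le_sum fun v hv => hf v hv)
  exact mul_le_mul_of_nonneg_left (hi v) (Nat.cast_nonneg _)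

theorem P_ps_nonneg {φ : AbsoluteValue K ℝ → ℝ} (h : ∀ v, 0 ≤ φ v) : 0 ≤ ps S φ := by
  unfold ps
  exact add_nonneg (Finset.sum_nonneg fun v _ => mul_nonneg (Nat.cast_nonneg _) (h _))
    (Finset.sum_nonneg fun v _ => h _)

/-- The sum over all places: the part for `S` and the rest. -/
theorem P_split {f : AbsoluteValue K ℝ → ℝ} (hf : FS f) :
    gs f = ps S f + ∑ᶠ v : {v : NumberField.FinitePlace K // v ∉ S}, f v.1.val := by
  classical
  have hfin : (Function.support fun v : NumberField.FinitePlace K => f v.val).Finite := hf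
  unfold gs ps
  rw [NumberField.sum_archAbsVal_eq, NumberField.sum_nonarchAbsVal_eq f]
  have h1 : ∑ᶠ v : NumberField.FinitePlace K, f v.val = ∑ v ∈ S, f v.val +
      ∑ᶠ v : {v : NumberField.FinitePlace K // v ∉ S}, f v.1.val := by
    rw [← finsum_mem_univ, ← Set.union_compl_self (S : Set (NumberField.FinitePlace K)),
      finsum_mem_union' disjoint_compl_right (hfin.subset Set.inter_subset_right)
        (hfin.subset Set.inter_subset_right), finsum_mem_coe_finset]
    congr 1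
    exact (finsum_subtype_eq_finsum_cond (f := fun v : NumberField.FinitePlace K => f v.val)
      (fun v => v ∉ S)).symm
  rw [h1, ← add_assoc]
  congr 2
  exact Finset.sum_congr rfl fun v _ => by rw [nsmul_eq_mul]

theorem P_supp {f : AbsoluteValue K ℝ → ℝ} (hf : FS f) : Function.HasFiniteSupport
    (fun v : {v : NumberField.FinitePlace K // v ∉ S} => f v.1.val) := by
  have hfin : (Function.support fun v : NumberField.FinitePlace K => f v.val).Finite := hf
  exact hfin.preimage (f := fun v : {v : NumberField.FinitePlace K // v ∉ S} => v.1)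
    Subtype.val_injective.injOn

/-- P1: the part of the height outside `S` is monotone. -/
theorem P_mono {ι κ : Type*} [Finite ι] [Finite κ] {x : ι → K} {y : κ → K} (hx : x ≠ 0)
    (hy : y ≠ 0) (h : ∀ v : NumberField.FinitePlace K, v ∉ S →
      (⨆ j, v (y j)) ≤ ⨆ i, v (x i)) :
    logHeight y - ps S (fun v => Real.log (⨆ j, v (y j))) ≤
      logHeight x - ps S (fun v => Real.log (⨆ i, v (x i))) := by
  have h1 := P_split S (FS_log_iSup hx)
  have h2 := P_split S (FS_log_iSup hy)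
  rw [gs_log_iSup] at h1 h2
  · rw [h1, h2, add_sub_cancel_left, add_sub_cancel_left]
    refine finsum_le_finsum' (P_supp S (FS_log_iSup hy)) (P_supp S (FS_log_iSup hx)) fun v => ?_
    refine Real.log_le_log ?_ (h v.1 v.2)
    obtain ⟨i, hi⟩ := Function.ne_iff.mp hy
    exact (v.1.val.pos hi).trans_le (Finite.le_ciSup_of_le i le_rfl)
  · exact hy
  · exact hx

/-- P2. -/
theorem P_unit {a : K} (ha : a ≠ 0) : |ps S (fun v => Real.log (v a))| ≤
    ∑ᶠ v : {v : NumberField.FinitePlace K // v ∉ S}, |Real.log (v.1 a)| := by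
  have h1 := P_split S (FS_log_abv ha)
  rw [gs_log_abv ha] at h1
  have h2 := P_supp S (FS_log_abv ha)
  have h3 : Function.HasFiniteSupport
      (fun v : {v : NumberField.FinitePlace K // v ∉ S} => |Real.log (v.1 a)|) := by
    refine h2.subset fun v hv => ?_
    intro h4
    have h4' : Real.log (v.1 a) = 0 := h4
    exact hv (by simp only [h4', abs_zero])
  have h4 : ∑ᶠ v : {v : NumberField.FinitePlace K // v ∉ S}, Real.log (v.1.val a) ≤
      ∑ᶠ v : {v : NumberField.FinitePlace K // v ∉ S}, |Real.log (v.1 a)| :=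
    finsum_le_finsum' h2 h3 fun v => le_abs_self _
  have h5 : -∑ᶠ v : {v : NumberField.FinitePlace K // v ∉ S}, Real.log (v.1.val a) ≤
      ∑ᶠ v : {v : NumberField.FinitePlace K // v ∉ S}, |Real.log (v.1 a)| := by
    rw [← finsum_neg_distrib]
    refine finsum_le_finsum' ?_ h3 fun v => neg_le_abs _
    refine h2.subset fun v hv => ?_
    intro h4
    exact hv (by
      have h4' : Real.log (v.1.val a) = 0 := h4
      simp only [h4', neg_zero])
  rw [abs_le]
  constructor
  · linarith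
  · linarith

theorem P_log_max {x : ℝ} (hx : 0 < x) : Real.log (max 1 x) ≤ |Real.log x| := by
  rcases le_total x 1 with h | h
  · rw [max_eq_left h, Real.log_one]
    exact abs_nonneg _
  · rw [max_eq_right h]
    exact le_abs_self _

theorem P_log_max_nonneg (x : ℝ) : 0 ≤ Real.log (max 1 x) :=
  Real.log_nonneg (le_max_left _ _)

/-- P3. -/
theorem P_h1 {a : K} (ha : a ≠ 0) :
    logHeight₁ a - ps S (fun v => Real.log (max 1 (v a))) ≤
      ∑ᶠ v : {v : NumberField.FinitePlace K // v ∉ S}, |Real.log (v.1 a)| := by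
  have h1 := P_split S (FS_log_max a)
  rw [gs_log_max] at h1
  rw [h1, add_sub_cancel_left]
  refine finsum_le_finsum' (P_supp S (FS_log_max a)) ?_ fun v => P_log_max (v.1.val.pos ha)
  refine (P_supp S (FS_log_abv ha)).subset fun v hv => ?_
  intro h4
  have h4' : Real.log (v.1 a) = 0 := h4
  exact hv (by simp only [h4', abs_zero])

theorem P_h1_nonneg (a : K) :
    0 ≤ ps S (fun v => Real.log (max 1 (v a))) ∧
      ps S (fun v => Real.log (max 1 (v a))) ≤ logHeight₁ a := by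
  refine ⟨P_ps_nonneg S fun v => P_log_max_nonneg _, ?_⟩
  have h1 := P_split S (FS_log_max a)
  rw [gs_log_max] at h1
  rw [h1]
  exact le_add_of_nonneg_right (finsum_nonneg fun v => P_log_max_nonneg _)

/-- P4. -/
theorem P_nonneg {ι : Type*} [Finite ι] {x : ι → K} (hx : x ≠ 0) {i : ι} (hi : x i = 1) :
    0 ≤ ps S (fun v => Real.log (⨆ i, v (x i))) := by
  refine P_ps_nonneg S fun v => Real.log_nonneg ?_
  refine Finite.le_ciSup_of_le i ?_
  rw [hi, map_one]

/-- The powers `1, a, ..., a ^ M`. -/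
theorem P_pow {K : Type*} [Field K] (v : AbsoluteValue K ℝ) (a : K) (M : ℕ) :
    (⨆ i : Fin (M + 1), v (a ^ (i : ℕ))) = (max 1 (v a)) ^ M := by
  apply le_antisymm
  · refine ciSup_le fun i => ?_
    rw [map_pow]
    exact (pow_le_pow_left₀ (v.nonneg _) (le_max_right _ _) _).trans
      (pow_le_pow_right₀ (le_max_left _ _) (Nat.lt_succ_iff.1 i.2))
  · rcases le_total (v a) 1 with h | h
    · rw [max_eq_left h, one_pow]
      refine Finite.le_ciSup_of_le (0 : Fin (M + 1)) ?_
      rw [Fin.val_zero, pow_zero, map_one]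
    · rw [max_eq_right h]
      refine Finite.le_ciSup_of_le (Fin.last M) ?_
      rw [Fin.val_last, map_pow]

omit [NumberField K] in
/-- P5: the local sup norms of `t ⊗ (u ^ a)`. -/
theorem P_sup {q M : ℕ} (t : Fin 2 → K) (u : Fin q → K) (v : AbsoluteValue K ℝ) :
    (⨆ p : Fin 2 × Box q M, v (t p.1 * mn u p.2)) =
      (⨆ i, v (t i)) * ∏ j, (max 1 (v (u j))) ^ M := by
  rw [Real.iSup_fun_mul_eq_iSup_mul_iSup_of_nonneg v t (mn u)]
  congr 1
  unfold mn
  simp only [map_prod]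
  rw [Real.iSup_prod_eq_prod_iSup_of_nonnegHomClass v
    (x := fun (j : Fin q) (i : Fin (M + 1)) => u j ^ (i : ℕ))]
  exact Finset.prod_congr rfl fun j _ => P_pow v (u j) M

theorem P_pow_height (a : K) (M : ℕ) :
    logHeight (fun i : Fin (M + 1) => a ^ (i : ℕ)) = M * logHeight₁ a := by
  have h0 : (fun i : Fin (M + 1) => a ^ (i : ℕ)) ≠ 0 := by
    intro h
    have h1 := congrFun h 0
    rw [Fin.val_zero, pow_zero] at h1
    exact one_ne_zero h1
  rw [← gs_log_iSup h0, ← gs_log_max, ← gs_const_mul]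
  congr 1
  funext v
  rw [P_pow, Real.log_pow]

omit [NumberField K] in
/-- The sup norm of the vector of the monomials `u ^ a`, `a ≤ d`. -/
theorem P_cf_sup {q : ℕ} (d : Fin q → ℕ) (u : Fin q → K) (v : AbsoluteValue K ℝ) :
    (⨆ a : Cf q d, v (∏ j, u j ^ (a j : ℕ))) = ∏ j, (max 1 (v (u j))) ^ d j := by
  simp only [map_prod]
  rw [Real.iSup_prod_eq_prod_iSup_of_nonnegHomClass v
    (x := fun (j : Fin q) (i : Fin (d j + 1)) => u j ^ (i : ℕ))]
  exact Finset.prod_congr rfl fun j _ => P_pow v (u j) (d j)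

/-- The height of the vector of the monomials `u ^ a`, `a ≤ d`. -/
theorem P_cf_height {q : ℕ} (d : Fin q → ℕ) (u : Fin q → K) :
    logHeight (fun a : Cf q d => ∏ j, u j ^ (a j : ℕ)) = ∑ j, (d j : ℝ) * logHeight₁ (u j) := by
  rw [logHeight_fun_prod_eq (x := fun (j : Fin q) (i : Fin (d j + 1)) => u j ^ (i : ℕ))]
  · exact Finset.sum_congr rfl fun j _ => P_pow_height (u j) (d j)
  · intro j h
    have h1 := congrFun h 0
    rw [Fin.val_zero, pow_zero] at h1
    exact one_ne_zero h1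

/-- P6: the height of `t ⊗ (u ^ a)`. -/
theorem P_height {q : ℕ} (M : ℕ) {t : Fin 2 → K} (ht : t ≠ 0) (u : Fin q → K) :
    logHeight (fun p : Fin 2 × Box q M => t p.1 * mn u p.2) =
      logHeight t + M * ∑ j, logHeight₁ (u j) := by
  have h0 : (mn u : Box q M → K) ≠ 0 := by
    intro h
    have h1 := congrFun h 0
    unfold mn at h1
    simp only [Pi.zero_apply, Fin.val_zero, pow_zero, Finset.prod_const_one] at h1
    exact one_ne_zero h1
  rw [logHeight_fun_mul_eq ht h0]
  congr 1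
  have h1 := P_cf_height (K := K) (fun _ : Fin q => M) u
  rw [Finset.mul_sum]
  exact h1

omit [NumberField K] in
/-- The value of `Q` as a sum over the exponents. -/
theorem P_val_sum {N q : ℕ} (A : AV K N) {D : ℕ} {d : Fin q → ℕ}
    {Q : MvPolynomial (Fin q) (MvPolynomial (Fin (N + 1)) K)} (hQ : Bd D d Q)
    {L : Type u} [Field L] [Algebra K L] (P : A.Pts L) (u : Fin q → L) :
    val A P u Q = ∑ a : Cf q d, aeval (A.x P) (coeff (fs fun j => (a j : ℕ)) Q) *
      ∏ j, u j ^ (a j : ℕ) := by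
  classical
  have h1 : val A P u Q = ∑ μ ∈ Q.support, aeval (A.x P) (coeff μ Q) * ∏ j, u j ^ μ j := by
    unfold val
    rw [eval₂_eq']
    rfl
  have hinj : Function.Injective fun a : Cf q d => fs fun j => (a j : ℕ) := by
    intro a b h
    have h2 := Finsupp.equivFunOnFinite.symm.injective h
    funext j
    exact Fin.ext (congrFun h2 j)
  have h3 : ∑ a : Cf q d, aeval (A.x P) (coeff (fs fun j => (a j : ℕ)) Q) *
      ∏ j, u j ^ (a j : ℕ) = ∑ μ ∈ Finset.univ.map ⟨_, hinj⟩,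
        aeval (A.x P) (coeff μ Q) * ∏ j, u j ^ μ j := by
    rw [Finset.sum_map]
    rfl
  rw [h1, h3]
  refine Finset.sum_subset (fun μ hμ => ?_) fun μ _ hμ => ?_
  · rw [Finset.mem_map]
    have h4 : ∀ j, μ j ≤ d j := fun j =>
      (monomial_le_degreeOf j hμ).trans (hQ.2 j)
    refine ⟨fun j => ⟨μ j, Nat.lt_succ_of_le (h4 j)⟩, Finset.mem_univ _, ?_⟩
    exact Finsupp.equivFunOnFinite.symm_apply_apply μ
  · rw [notMem_support_iff.1 hμ, map_zero, zero_mul]

omit [NumberField K] in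
/-- The value of `Q` as a sum over the exponents of both kinds. -/
theorem P_val_eq {N q : ℕ} (A : AV K N) {D : ℕ} {d : Fin q → ℕ}
    {Q : MvPolynomial (Fin q) (MvPolynomial (Fin (N + 1)) K)} (hQ : Bd D d Q) (P : A.Pts K)
    (u : Fin q → K) :
    val A P u Q = ∑ p : Fin (EF.Mo (N + 1) D).card × Cf q d,
      EF.cf D (coeff (fs fun j => (p.2 j : ℕ)) Q) p.1 *
        (EF.ver D (A.x P) p.1 * ∏ j, u j ^ (p.2 j : ℕ)) := by
  rw [P_val_sum A hQ, Fintype.sum_prod_type_right]
  refine Finset.sum_congr rfl fun a _ => ?_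
  have h3 : aeval (A.x P) (coeff (fs fun j => (a j : ℕ)) Q) =
      eval (A.x P) (coeff (fs fun j => (a j : ℕ)) Q) := rfl
  rw [h3, EF.eval_cf (hQ.1 _), Finset.sum_mul]
  exact Finset.sum_congr rfl fun l _ => mul_assoc _ _ _

/-- P7: the values of `Q` are bounded. -/
theorem P_val {N q : ℕ} (A : AV K N) {D : ℕ} {d : Fin q → ℕ}
    {Q : MvPolynomial (Fin q) (MvPolynomial (Fin (N + 1)) K)} (hQ : Bd D d Q)
    (v : AbsoluteValue K ℝ) :
    ∃ C : ℝ, ∀ (P : A.Pts K) (u : Fin q → K), val A P u Q ≠ 0 →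
      Real.log (v (val A P u Q)) ≤ D * Real.log (⨆ i, v (A.x P i)) + sz d v u + C := by
  obtain ⟨B, hB⟩ : ∃ B : ℝ, B = 1 + ∑ p : Fin (EF.Mo (N + 1) D).card × Cf q d,
      v (EF.cf D (coeff (fs fun j => (p.2 j : ℕ)) Q) p.1) := ⟨_, rfl⟩
  have hB0 : 0 < B := by
    rw [hB]
    exact add_pos_of_pos_of_nonneg one_pos (Finset.sum_nonneg fun p _ => v.nonneg _)
  refine ⟨Real.log B, fun P u h0 => ?_⟩
  have hx : A.x P ≠ 0 := P.1.rep_nonzero
  have hx0 : 0 < ⨆ i, v (A.x P i) := by
    obtain ⟨i, hi⟩ := Function.ne_iff.mp hx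
    exact (v.pos hi).trans_le (Finite.le_ciSup_of_le i le_rfl)
  obtain ⟨Z, hZ⟩ : ∃ Z : ℝ, Z = (⨆ i, v (A.x P i)) ^ D * ∏ j, (max 1 (v (u j))) ^ d j := ⟨_, rfl⟩
  have hm : ∀ j, 0 < max 1 (v (u j)) := fun j => zero_lt_one.trans_le (le_max_left _ _)
  have hp : 0 < ∏ j, (max 1 (v (u j))) ^ d j := Finset.prod_pos fun j _ => pow_pos (hm j) _
  have hZ0 : 0 < Z := by
    rw [hZ]
    exact mul_pos (pow_pos hx0 _) hp
  have h1 : v (val A P u Q) ≤ B * Z := by
    rw [P_val_eq A hQ]
    refine (v.sum_le _ _).trans ?_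
    have h2 : ∑ p : Fin (EF.Mo (N + 1) D).card × Cf q d,
        v (EF.cf D (coeff (fs fun j => (p.2 j : ℕ)) Q) p.1 *
          (EF.ver D (A.x P) p.1 * ∏ j, u j ^ (p.2 j : ℕ))) ≤
        ∑ p : Fin (EF.Mo (N + 1) D).card × Cf q d,
          v (EF.cf D (coeff (fs fun j => (p.2 j : ℕ)) Q) p.1) * Z := by
      refine Finset.sum_le_sum fun p _ => ?_
      rw [map_mul, map_mul, hZ]
      refine mul_le_mul_of_nonneg_left ?_ (v.nonneg _)
      refine mul_le_mul ?_ ?_ (v.nonneg _) (pow_nonneg hx0.le _)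
      · rw [← EF.ver_sup v hx]
        exact Finite.le_ciSup_of_le p.1 le_rfl
      · rw [map_prod]
        refine Finset.prod_le_prod (fun j _ => v.nonneg _) fun j _ => ?_
        rw [map_pow]
        exact (pow_le_pow_left₀ (v.nonneg _) (le_max_right _ _) _).trans
          (pow_le_pow_right₀ (le_max_left _ _) (Nat.lt_succ_iff.1 (p.2 j).2))
    refine h2.trans ?_
    rw [← Finset.sum_mul]
    refine mul_le_mul_of_nonneg_right ?_ hZ0.le
    rw [hB]
    linarith
  have h2 := Real.log_le_log (v.pos h0) h1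
  have h3 : Real.log Z = D * Real.log (⨆ i, v (A.x P i)) + sz d v u := by
    rw [hZ, Real.log_mul (pow_pos hx0 _).ne' hp.ne', Real.log_pow,
      Real.log_prod fun j _ => (pow_pos (hm j) _).ne']
    unfold sz
    congr 1
    exact Finset.sum_congr rfl fun j _ => Real.log_pow _ _
  rw [Real.log_mul hB0.ne' hZ0.ne', h3] at h2
  linarith

/-- P8: the height of a vector of values. -/
theorem P_val_height {N q : ℕ} (A : AV K N) {D : ℕ} {d : Fin q → ℕ} {ι : Type*} [Finite ι]
    {Q : ι → MvPolynomial (Fin q) (MvPolynomial (Fin (N + 1)) K)} (hQ : ∀ i, Bd D d (Q i)) :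
    ∃ C : ℝ, ∀ (P : A.Pts K) (u : Fin q → K),
      logHeight (fun i => val A P u (Q i)) ≤
        D * logHeight (A.x P) + ∑ j, (d j : ℝ) * logHeight₁ (u j) + C := by
  obtain ⟨M, hM⟩ : ∃ M : ι × (Fin (EF.Mo (N + 1) D).card × Cf q d) → K,
      M = fun w => EF.cf D (coeff (fs fun j => (w.2.2 j : ℕ)) (Q w.1)) w.2.1 := ⟨_, rfl⟩
  refine ⟨totalWeight K * Real.log (Nat.card (Fin (EF.Mo (N + 1) D).card × Cf q d)) +
    logHeight M, fun P u => ?_⟩
  have hx : A.x P ≠ 0 := P.1.rep_nonzero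
  have h1 := logHeight_linearMap_apply_le M
    (fun p : Fin (EF.Mo (N + 1) D).card × Cf q d =>
      EF.ver D (A.x P) p.1 * ∏ j, u j ^ (p.2 j : ℕ))
  have h2 : (fun i => ∑ p : Fin (EF.Mo (N + 1) D).card × Cf q d, M (i, p) *
      (EF.ver D (A.x P) p.1 * ∏ j, u j ^ (p.2 j : ℕ))) = fun i => val A P u (Q i) := by
    funext i
    rw [P_val_eq A (hQ i), hM]
  have h3 : (fun a : Cf q d => ∏ j, u j ^ (a j : ℕ)) ≠ 0 := by
    intro h
    have h4 := congrFun h 0
    simp only [Pi.zero_apply, Fin.val_zero, pow_zero, Finset.prod_const_one] at h4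
    exact one_ne_zero h4
  rw [h2, logHeight_fun_mul_eq (EF.ver_ne hx) h3, EF.ver_height hx, P_cf_height] at h1
  linarith

end

end Pool.Agent.Lib.MP_17a322_nt.SV2
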